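import Mathlib

/-!
# Radical inequalities in rings of integers: definitions
-/

set_option autoImplicit false

namespace Pool.Agent.N251.GA

/-- arithmetic data on a ring `R`: finitely many embeddings into `ℂ`, for which the product of the
absolute values of a nonzero element is at least `1`, a radical, and a form of the finiteness of the
residue rings -/
structure Ar (R : Type) [CommRing R] where
  ι : Type
  fin : Fintype ι
  ne : Nonempty ι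
  σ : ι → R →+* ℂ
  rad : R → ℝ
  one_le_norm : ∀ x : R, x ≠ 0 → 1 ≤ ∏ i, ‖σ i x‖
  one_le_rad : ∀ x : R, 1 ≤ rad x
  rad_le_norm : ∀ x : R, x ≠ 0 → rad x ≤ ∏ i, ‖σ i x‖
  rad_mul_le : ∀ x y : R, x ≠ 0 → y ≠ 0 → rad (x * y) ≤ rad x * rad y
  rad_mono : ∀ (x y : R) (k : ℕ), y ≠ 0 → x ∣ y ^ k → rad x ≤ rad y
  idem : ∀ N : ℕ, N ≠ 0 → ∃ k : ℕ, 1 ≤ k ∧ ∀ x : R, (N : R) ∣ x ^ k * (x ^ k - 1)

attribute [instance] Ar.fin Ar.ne

variable {R : Type} [CommRing R]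

/-- lower bounds for the radicals of the elements `F s`, `s` with the property `P`, by the power
`θ - ε` of the size `∏ M s i` -/
def Low (D : Ar R) {S : Type} (P : S → Prop) (M : S → D.ι → ℝ) (F : S → R) (θ : ℝ) : Prop :=
  ∀ ε : ℝ, 0 < ε → ∃ κ : ℝ, 0 < κ ∧ ∀ s, P s → κ * (∏ i, M s i) ^ (θ - ε) ≤ D.rad (F s)

/-- coprime triples `a + b + c = 0` of nonzero elements -/
def Tri (t : R × R × R) : Prop :=
  IsCoprime t.1 t.2.1 ∧ t.1 + t.2.1 + t.2.2 = 0 ∧ t.1 ≠ 0 ∧ t.2.1 ≠ 0 ∧ t.2.2 ≠ 0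

/-- the size at one embedding -/
noncomputable def ht (D : Ar R) (t : R × R × R) (i : D.ι) : ℝ :=
  max (max ‖D.σ i t.1‖ ‖D.σ i t.2.1‖) ‖D.σ i t.2.2‖

/-- the abc inequality for the triples `a + b + c = 0` with the property `T` -/
def ABC (D : Ar R) (T : R × R × R → Prop) : Prop :=
  Low D (fun t : R × R × R => Tri t ∧ T t) (ht D) (fun t => t.1 * t.2.1 * t.2.2) 1

/-- the inequality `rad (x ^ p - y ^ q) ≥ κ M ^ (1 - 1/p - 1/q - ε)` for the coprime `x`, `y` with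
`x ^ p ≠ y ^ q` and `N ∣ x ^ p - y ^ q` -/
def OneCusp (D : Ar R) (p q N : ℕ) : Prop :=
  Low D (fun s : R × R => IsCoprime s.1 s.2 ∧ s.1 ^ p ≠ s.2 ^ q ∧ (N : R) ∣ s.1 ^ p - s.2 ^ q)
    (fun s i => max (‖D.σ i s.1‖ ^ p) (‖D.σ i s.2‖ ^ q)) (fun s => s.1 ^ p - s.2 ^ q)
    (1 - 1 / (p : ℝ) - 1 / (q : ℝ))

/-- the inequality `rad (u v) ≥ κ M ^ (1 - 1/n - ε)` for the coprime nonzero `u`, `v` whose sum is an
`n`-th power, with `N ∣ u`; the objects are `(u, v, x)` with `u + v = x ^ n` -/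
def TwoCusps (D : Ar R) (n N : ℕ) : Prop :=
  Low D (fun s : R × R × R => IsCoprime s.1 s.2.1 ∧ s.1 ≠ 0 ∧ s.2.1 ≠ 0 ∧ s.1 + s.2.1 = s.2.2 ^ n ∧
    (N : R) ∣ s.1) (fun s i => max ‖D.σ i s.1‖ ‖D.σ i s.2.1‖) (fun s => s.1 * s.2.1) (1 - 1 / (n : ℝ))

end Pool.Agent.N251.GA
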