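import Mathlib
import Pool.Agent.N251.GA.Stm

/-!
# Radical inequalities in rings of integers: the transfer principle
-/

set_option autoImplicit false

namespace Pool.Agent.N251.GA

variable {R : Type} [CommRing R]

/-- **Transfer of radical inequalities along a map.** -/
theorem transfer (D : Ar R) {S S' : Type} {P : S → Prop} {P' : S' → Prop} {M : S → D.ι → ℝ}
    {M' : S' → D.ι → ℝ} {F : S → R} {F' : S' → R} {θ θ' : ℝ} (d : ℕ) (e K : ℝ) (hK : 1 ≤ K)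
    (hθ' : 0 < θ') (hθ : θ ≤ θ' * d - e) (hM0 : ∀ s, P s → ∀ i, 0 ≤ M s i)
    (hM : ∀ s, P s → 1 ≤ ∏ i, M s i) (hF : ∀ s, P s → F s ≠ 0)
    (h : ∀ s, P s → (∏ i, M s i ≤ K) ∨ ∃ s', P' s' ∧ (∀ i, M s i ^ d ≤ K * M' s' i) ∧
      ∃ w : R, w ≠ 0 ∧ F s * w ≠ 0 ∧ (∀ i, ‖D.σ i w‖ ≤ K * M s i ^ e) ∧ ∃ k : ℕ, F' s' ∣ (F s * w) ^ k)
    (hL : Low D P' M' F' θ') : Low D P M F θ := by
  intro ε hε
  have hK0 : 0 < K := by linarith
  set n := Fintype.card D.ι with hn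
  have hd0 : (0 : ℝ) ≤ d := Nat.cast_nonneg d
  set ε' : ℝ := min (θ' / 2) (ε / (d + 1)) with hε'
  have hε'0 : 0 < ε' := lt_min (by positivity) (by positivity)
  have hε'1 : ε' ≤ θ' / 2 := min_le_left _ _
  have hε'2 : ε' ≤ ε / (d + 1) := min_le_right _ _
  have hdε : (d : ℝ) * ε' ≤ ε := by
    calc (d : ℝ) * ε' ≤ (d + 1) * (ε / (d + 1)) := by
          apply mul_le_mul (by linarith) hε'2 hε'0.le (by linarith)
      _ = ε := by field_simp
  obtain ⟨κ', hκ'0, hκ'⟩ := hL ε' hε'0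
  set κ₁ : ℝ := κ' * ((K ^ n) ^ (θ' - ε'))⁻¹ * (K ^ n)⁻¹ with hκ₁
  have hKn : (0 : ℝ) < K ^ n := by positivity
  have hκ₁0 : 0 < κ₁ := by
    have := Real.rpow_pos_of_pos hKn (θ' - ε')
    positivity
  set κ₂ : ℝ := (K ^ |θ|)⁻¹ with hκ₂
  have hκ₂0 : 0 < κ₂ := by
    have := Real.rpow_pos_of_pos hK0 (|θ|)
    positivity
  refine ⟨min κ₁ κ₂, lt_min hκ₁0 hκ₂0, fun s hs => ?_⟩
  have hm := hM s hs
  set m : ℝ := ∏ i, M s i with hmdef
  have hm0 : 0 < m := by linarith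
  have hmp : 0 < m ^ (θ - ε) := Real.rpow_pos_of_pos hm0 _
  have hrad := D.one_le_rad (F s)
  rcases h s hs with h1 | ⟨s', hs', h1, w, hw, hFw, h2, k, h3⟩
  · calc min κ₁ κ₂ * m ^ (θ - ε) ≤ κ₂ * m ^ (θ - ε) :=
          mul_le_mul_of_nonneg_right (min_le_right _ _) hmp.le
      _ ≤ κ₂ * K ^ |θ| := by
          apply mul_le_mul_of_nonneg_left _ hκ₂0.le
          calc m ^ (θ - ε) ≤ m ^ |θ| :=
                Real.rpow_le_rpow_of_exponent_le hm (by have := le_abs_self θ; linarith)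
            _ ≤ K ^ |θ| := Real.rpow_le_rpow hm0.le h1 (abs_nonneg _)
      _ = 1 := by rw [hκ₂]; exact inv_mul_cancel₀ (Real.rpow_pos_of_pos hK0 _).ne'
      _ ≤ _ := hrad
  · have hMpos : ∀ i, 0 < M s i := by
      intro i
      rcases (hM0 s hs i).lt_or_eq with h4 | h4
      · exact h4
      · exfalso
        have : m = 0 := Finset.prod_eq_zero (Finset.mem_univ i) h4.symm
        linarith
    have hprod : m ^ d ≤ K ^ n * ∏ i, M' s' i := by
      rw [hmdef, ← Finset.prod_pow, hn, ← Finset.card_univ, ← Finset.prod_const,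
        ← Finset.prod_mul_distrib]
      exact Finset.prod_le_prod (fun i _ => by have := hMpos i; positivity) fun i _ => h1 i
    set m' : ℝ := ∏ i, M' s' i with hm'
    have hm'1 : m ^ d / K ^ n ≤ m' := by rw [div_le_iff₀ hKn]; linarith
    have hwn : ∏ i, ‖D.σ i w‖ ≤ K ^ n * m ^ e := by
      rw [hmdef, ← Real.finsetProd_rpow _ _ (fun i _ => (hMpos i).le), hn, ← Finset.card_univ,
        ← Finset.prod_const, ← Finset.prod_mul_distrib]
      exact Finset.prod_le_prod (fun i _ => norm_nonneg _) fun i _ => h2 i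
    have hr : D.rad (F' s') ≤ D.rad (F s) * (K ^ n * m ^ e) := by
      calc D.rad (F' s') ≤ D.rad (F s * w) := D.rad_mono _ _ k hFw h3
        _ ≤ D.rad (F s) * D.rad w := D.rad_mul_le _ _ (hF s hs) hw
        _ ≤ D.rad (F s) * (K ^ n * m ^ e) :=
            mul_le_mul_of_nonneg_left ((D.rad_le_norm w hw).trans hwn) (by linarith)
    have hθε : 0 ≤ θ' - ε' := by linarith
    have h4 : κ' * (m ^ d / K ^ n) ^ (θ' - ε') ≤ D.rad (F s) * (K ^ n * m ^ e) :=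
      calc κ' * (m ^ d / K ^ n) ^ (θ' - ε') ≤ κ' * m' ^ (θ' - ε') :=
            mul_le_mul_of_nonneg_left (Real.rpow_le_rpow (by positivity) hm'1 hθε) hκ'0.le
        _ ≤ D.rad (F' s') := hκ' s' hs'
        _ ≤ _ := hr
    have hme : 0 < m ^ e := Real.rpow_pos_of_pos hm0 _
    have h5 : (m ^ d / K ^ n) ^ (θ' - ε') = m ^ ((d : ℝ) * (θ' - ε')) * ((K ^ n) ^ (θ' - ε'))⁻¹ := by
      rw [Real.div_rpow (by positivity) hKn.le, ← Real.rpow_natCast m d, ← Real.rpow_mul hm0.le,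
        div_eq_mul_inv]
    have h6 : m ^ ((d : ℝ) * (θ' - ε')) = m ^ ((d : ℝ) * (θ' - ε') - e) * m ^ e := by
      rw [← Real.rpow_add hm0]; congr 1; ring
    have h7 : κ₁ * m ^ ((d : ℝ) * (θ' - ε') - e) ≤ D.rad (F s) := by
      rw [h5, h6] at h4
      have h8 : κ₁ * m ^ ((d : ℝ) * (θ' - ε') - e) * (K ^ n * m ^ e) ≤
          D.rad (F s) * (K ^ n * m ^ e) := by
        refine le_trans (le_of_eq ?_) h4
        rw [hκ₁]
        field_simp
      exact le_of_mul_le_mul_right h8 (by positivity)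
    calc min κ₁ κ₂ * m ^ (θ - ε) ≤ κ₁ * m ^ (θ - ε) :=
          mul_le_mul_of_nonneg_right (min_le_left _ _) hmp.le
      _ ≤ κ₁ * m ^ ((d : ℝ) * (θ' - ε') - e) := by
          apply mul_le_mul_of_nonneg_left _ hκ₁0.le
          apply Real.rpow_le_rpow_of_exponent_le hm
          have : (d : ℝ) * (θ' - ε') = θ' * d - d * ε' := by ring
          linarith
      _ ≤ _ := h7

/-- restriction of the family -/
theorem low_mono (D : Ar R) {S : Type} {P P' : S → Prop} {M : S → D.ι → ℝ} {F : S → R} {θ : ℝ}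
    (hP : ∀ s, P s → P' s) (h : Low D P' M F θ) : Low D P M F θ := by
  intro ε hε
  obtain ⟨κ, hκ0, hκ⟩ := h ε hε
  exact ⟨κ, hκ0, fun s hs => hκ s (hP s hs)⟩

theorem sigma_ne_zero (D : Ar R) {x : R} (hx : x ≠ 0) (i : D.ι) : D.σ i x ≠ 0 := by
  intro h
  have h1 := D.one_le_norm x hx
  have h2 : ∏ j, ‖D.σ j x‖ = 0 := Finset.prod_eq_zero (Finset.mem_univ i) (by rw [h, norm_zero])
  rw [h2] at h1
  linarith

theorem sigma_eq_zero (D : Ar R) {x : R} {i : D.ι} (h : D.σ i x = 0) : x = 0 := by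
  by_contra hx
  exact sigma_ne_zero D hx i h

theorem sigma_inj (D : Ar R) (i : D.ι) : Function.Injective (D.σ i) := by
  intro x y h
  have : D.σ i (x - y) = 0 := by rw [map_sub, h, sub_self]
  exact sub_eq_zero.1 (sigma_eq_zero D this)

theorem isDomain (D : Ar R) : IsDomain R := by
  obtain ⟨i⟩ := D.ne
  exact (sigma_inj D i).isDomain (D.σ i)

theorem charZero (D : Ar R) : CharZero R := by
  obtain ⟨i⟩ := D.ne
  refine ⟨fun m n h => ?_⟩
  have := congrArg (D.σ i) h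
  simpa using this

theorem norm_unit (D : Ar R) {x : R} (hx : IsUnit x) : ∏ i, ‖D.σ i x‖ = 1 := by
  obtain ⟨i₀⟩ := D.ne
  obtain ⟨y, hy⟩ := hx.exists_right_inv
  have h10 : (1 : R) ≠ 0 := by
    intro h
    have := congrArg (D.σ i₀) h
    simp at this
  have hx0 : x ≠ 0 := by rintro rfl; rw [zero_mul] at hy; exact h10 hy.symm
  have hy0 : y ≠ 0 := by rintro rfl; rw [mul_zero] at hy; exact h10 hy.symm
  have h1 := D.one_le_norm x hx0
  have h2 := D.one_le_norm y hy0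
  have h3 : (∏ i, ‖D.σ i x‖) * ∏ i, ‖D.σ i y‖ = 1 := by
    rw [← Finset.prod_mul_distrib]
    apply Finset.prod_eq_one
    intro i _
    rw [← norm_mul, ← map_mul, hy, map_one, norm_one]
  nlinarith

theorem nat_not_unit (D : Ar R) {n : ℕ} (hn : 2 ≤ n) : ¬ IsUnit (n : R) := by
  intro h
  have h1 := norm_unit D h
  have h2 : (∏ i, ‖D.σ i (n : R)‖) = (n : ℝ) ^ Fintype.card D.ι := by
    rw [← Finset.card_univ, ← Finset.prod_const]
    apply Finset.prod_congr rfl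
    intro i _
    rw [map_natCast, Complex.norm_natCast]
  rw [h2] at h1
  have h3 : (1 : ℝ) < n := by exact_mod_cast hn
  have h4 := one_lt_pow₀ h3 (Fintype.card_ne_zero (α := D.ι))
  linarith

theorem not_unit_of_dvd (D : Ar R) {n : ℕ} (hn : 2 ≤ n) {x : R} (h : (n : R) ∣ x) : ¬ IsUnit x :=
  fun hx => nat_not_unit D hn (isUnit_of_dvd_unit h hx)

theorem le_norm_prod (D : Ar R) {x : R} (hx : x ≠ 0) {M : D.ι → ℝ} (h : ∀ i, ‖D.σ i x‖ ≤ M i) :
    1 ≤ ∏ i, M i :=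
  (D.one_le_norm x hx).trans (Finset.prod_le_prod (fun _ _ => norm_nonneg _) fun i _ => h i)

theorem ht_ge1 (D : Ar R) (t : R × R × R) (i : D.ι) : ‖D.σ i t.1‖ ≤ ht D t i :=
  (le_max_left _ _).trans (le_max_left _ _)

theorem ht_ge2 (D : Ar R) (t : R × R × R) (i : D.ι) : ‖D.σ i t.2.1‖ ≤ ht D t i :=
  (le_max_right _ _).trans (le_max_left _ _)

theorem ht_ge3 (D : Ar R) (t : R × R × R) (i : D.ι) : ‖D.σ i t.2.2‖ ≤ ht D t i := le_max_right _ _

theorem ht_nonneg (D : Ar R) (t : R × R × R) (i : D.ι) : 0 ≤ ht D t i :=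
  (norm_nonneg _).trans (ht_ge1 D t i)

theorem ht_one (D : Ar R) {t : R × R × R} (h : Tri t) : 1 ≤ ∏ i, ht D t i :=
  le_norm_prod D h.2.2.1 (ht_ge1 D t)

/-- the transfer principle for maps which start from triples -/
theorem transferTri (D : Ar R) {S' : Type} {T : R × R × R → Prop} {P' : S' → Prop}
    {M' : S' → D.ι → ℝ} {F' : S' → R} {θ' : ℝ} (d e : ℕ) (K : ℝ) (hK : 1 ≤ K)
    (hθ' : 0 < θ') (hθ : 1 + (e : ℝ) ≤ θ' * d)
    (h : ∀ t, Tri t → T t → (∏ i, ht D t i ≤ K) ∨ ∃ s', P' s' ∧ (∀ i, ht D t i ^ d ≤ K * M' s' i) ∧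
      ∃ w : R, w ≠ 0 ∧ (∀ i, ‖D.σ i w‖ ≤ K * ht D t i ^ e) ∧
        ∃ k : ℕ, F' s' ∣ (t.1 * t.2.1 * t.2.2 * w) ^ k)
    (hL : Low D P' M' F' θ') : ABC D T := by
  haveI := isDomain D
  refine transfer D d (e : ℝ) K hK hθ' (by linarith) (fun t _ i => ht_nonneg D t i)
    (fun t ht => ht_one D ht.1) (fun t ht => mul_ne_zero (mul_ne_zero ht.1.2.2.1 ht.1.2.2.2.1) ht.1.2.2.2.2)
    ?_ hL
  intro t htr
  rcases h t htr.1 htr.2 with h1 | ⟨s', h1, h2, w, h3, h4, h5⟩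
  · exact Or.inl h1
  · refine Or.inr ⟨s', h1, h2, w, h3, mul_ne_zero (mul_ne_zero (mul_ne_zero htr.1.2.2.1
      htr.1.2.2.2.1) htr.1.2.2.2.2) h3, fun i => ?_, h5⟩
    rw [Real.rpow_natCast]
    exact h4 i

end Pool.Agent.N251.GA
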