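import Mathlib
import Pool.Agent.N251.GA.Base

/-!
# Radical inequalities in rings of integers: tools
-/

set_option autoImplicit false

namespace Pool.Agent.N251.GA

/-! ### homogeneous functions -/

theorem hom_upper (F : ℂ × ℂ → ℂ) (hF : Continuous F) (e : ℕ)
    (hom : ∀ (t : ℂ) (p : ℂ × ℂ), F (t • p) = t ^ e * F p) :
    ∃ C : ℝ, 0 < C ∧ ∀ p, ‖F p‖ ≤ C * ‖p‖ ^ e := by
  obtain ⟨C, hC⟩ := (isCompact_sphere (0 : ℂ × ℂ) 1).exists_bound_of_continuousOn hF.continuousOn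
  refine ⟨max C 1, lt_max_of_lt_right one_pos, fun p => ?_⟩
  by_cases hp : p = 0
  · subst hp
    rcases Nat.eq_zero_or_pos e with h | h
    · subst h
      have h1 := hom 0 (1, 0)
      rw [zero_smul, pow_zero, one_mul] at h1
      rw [h1, pow_zero, mul_one]
      refine (hC (1, 0) ?_).trans (le_max_left _ _)
      simp [Prod.norm_def]
    · have h1 := hom 0 0
      rw [zero_smul, zero_pow (by omega), zero_mul] at h1
      rw [h1, norm_zero]
      positivity
  · have hp0 : 0 < ‖p‖ := norm_pos_iff.2 hp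
    have h1 := hom (‖p‖ : ℂ) (((‖p‖ : ℂ)⁻¹) • p)
    have hne : (‖p‖ : ℂ) ≠ 0 := by exact_mod_cast hp0.ne'
    rw [smul_smul, mul_inv_cancel₀ hne, one_smul] at h1
    rw [h1, norm_mul, norm_pow, Complex.norm_real, norm_norm, mul_comm]
    apply mul_le_mul_of_nonneg_right _ (by positivity)
    refine (hC _ ?_).trans (le_max_left _ _)
    rw [mem_sphere_zero_iff_norm, norm_smul, norm_inv, Complex.norm_real, norm_norm,
      inv_mul_cancel₀ hp0.ne']

theorem hom_lower (F G : ℂ × ℂ → ℂ) (hF : Continuous F) (hG : Continuous G) (d : ℕ) (hd : 1 ≤ d)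
    (homF : ∀ (t : ℂ) (p : ℂ × ℂ), F (t • p) = t ^ d * F p)
    (homG : ∀ (t : ℂ) (p : ℂ × ℂ), G (t • p) = t ^ d * G p)
    (h0 : ∀ p : ℂ × ℂ, F p = 0 → G p = 0 → p = 0) :
    ∃ C : ℝ, 0 < C ∧ ∀ p, ‖p‖ ^ d ≤ C * max ‖F p‖ ‖G p‖ := by
  have hcont : Continuous fun p : ℂ × ℂ => max ‖F p‖ ‖G p‖ := hF.norm.max hG.norm
  obtain ⟨p₀, hp₀, hmin⟩ := (isCompact_sphere (0 : ℂ × ℂ) 1).exists_isMinOn
    ⟨(1, 0), by simp [Prod.norm_def]⟩ hcont.continuousOn
  have hm0 : 0 < max ‖F p₀‖ ‖G p₀‖ := by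
    by_contra h
    push Not at h
    have h1 : ‖F p₀‖ ≤ 0 := (le_max_left _ _).trans h
    have h2 : ‖G p₀‖ ≤ 0 := (le_max_right _ _).trans h
    have h3 := h0 p₀ (norm_le_zero_iff.1 h1) (norm_le_zero_iff.1 h2)
    rw [h3] at hp₀
    simp at hp₀
  refine ⟨(max ‖F p₀‖ ‖G p₀‖)⁻¹, by positivity, fun p => ?_⟩
  by_cases hp : p = 0
  · subst hp
    rw [norm_zero, zero_pow (by omega)]
    positivity
  · have hp0 : 0 < ‖p‖ := norm_pos_iff.2 hp
    have hne : (‖p‖ : ℂ) ≠ 0 := by exact_mod_cast hp0.ne'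
    set q : ℂ × ℂ := ((‖p‖ : ℂ)⁻¹) • p with hq
    have hqp : p = (‖p‖ : ℂ) • q := by
      rw [hq, smul_smul, mul_inv_cancel₀ hne, one_smul]
    have hqs : q ∈ Metric.sphere (0 : ℂ × ℂ) 1 := by
      rw [mem_sphere_zero_iff_norm, hq, norm_smul, norm_inv, Complex.norm_real, norm_norm,
        inv_mul_cancel₀ hp0.ne']
    have h1 : max ‖F p₀‖ ‖G p₀‖ ≤ max ‖F q‖ ‖G q‖ := hmin hqs
    have hFp : ‖F p‖ = ‖p‖ ^ d * ‖F q‖ := by
      conv_lhs => rw [hqp]
      rw [homF, norm_mul, norm_pow, Complex.norm_real, norm_norm]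
    have hGp : ‖G p‖ = ‖p‖ ^ d * ‖G q‖ := by
      conv_lhs => rw [hqp]
      rw [homG, norm_mul, norm_pow, Complex.norm_real, norm_norm]
    rw [hFp, hGp, ← mul_max_of_nonneg _ _ (by positivity : (0:ℝ) ≤ ‖p‖ ^ d)]
    rw [inv_mul_eq_div, le_div_iff₀ hm0]
    exact mul_le_mul_of_nonneg_left h1 (by positivity)

/-! ### coprimality and maximal ideals -/

variable {R : Type} [CommRing R]

theorem isCoprime_of_max {x y : R} (h : ∀ P : Ideal R, P.IsMaximal → x ∈ P → y ∈ P → False) :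
    IsCoprime x y := by
  rw [← Ideal.isCoprime_span_singleton_iff, Ideal.isCoprime_iff_sup_eq]
  by_contra hne
  obtain ⟨P, hP, hle⟩ := Ideal.exists_le_maximal _ hne
  exact h P hP (hle (Ideal.mem_sup_left (Ideal.mem_span_singleton_self x)))
    (hle (Ideal.mem_sup_right (Ideal.mem_span_singleton_self y)))

theorem not_both {x y : R} (h : IsCoprime x y) {P : Ideal R} (hP : P.IsMaximal) (hx : x ∈ P)
    (hy : y ∈ P) : False := by
  obtain ⟨u, v, huv⟩ := h
  apply hP.ne_top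
  rw [Ideal.eq_top_iff_one, ← huv]
  exact P.add_mem (P.mul_mem_left _ hx) (P.mul_mem_left _ hy)

theorem mem_of_dvd {x y : R} {P : Ideal R} (h : x ∣ y) (hx : x ∈ P) : y ∈ P := by
  obtain ⟨z, rfl⟩ := h
  exact P.mul_mem_right _ hx

/-- a coprime triple whose first member is nonzero and no unit consists of nonzero elements -/
theorem tri_of (D : Ar R) {a b c : R} (hab : IsCoprime a b) (hs : a + b + c = 0) (ha : a ≠ 0)
    {n : ℕ} (hn : 2 ≤ n) (hna : (n : R) ∣ a) : Tri (a, b, c) := by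
  have hu := not_unit_of_dvd D hn hna
  refine ⟨hab, hs, ha, ?_, ?_⟩
  · intro hb
    simp only at hb
    rw [hb] at hab
    exact hu (isCoprime_zero_right.1 hab)
  · intro hc
    simp only at hc
    have hb : b = -a := by linear_combination hs - hc
    rw [hb, IsCoprime.neg_right_iff] at hab
    exact hu (isCoprime_self.1 hab)

/-! ### reduction to triples with `N ∣ a` -/

theorem abc_of_dvd_prod (D : Ar R) (N : ℕ) (hN : 1 ≤ N)
    (h : ABC D fun t => (N : R) ∣ t.1 * t.2.1 * t.2.2) : ABC D fun _ => True := by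
  have := isDomain D
  obtain ⟨k, hk, hk'⟩ := D.idem N (by omega)
  set n := Fintype.card D.ι with hn
  set K : ℝ := 2 ^ n + 2 ^ k + k with hK
  have h2n : (1 : ℝ) ≤ 2 ^ n := one_le_pow₀ (by norm_num)
  have h2k : (1 : ℝ) ≤ 2 ^ k := one_le_pow₀ (by norm_num)
  have hkk : (0 : ℝ) ≤ k := Nat.cast_nonneg k
  refine transferTri D k (k - 1) K (by linarith) one_pos ?_ ?_ h
  · rw [Nat.cast_sub hk]; push_cast; linarith
  rintro ⟨a, b, c⟩ ht -
  obtain ⟨hab, hsum, ha, hb, hc⟩ := ht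
  simp only at hab hsum ha hb hc
  set x : R := -c with hx
  have hxab : x = a + b := by rw [hx]; linear_combination -hsum
  have hxb : IsCoprime x b := by
    rw [hxab]
    have := hab.add_mul_right_left 1
    rwa [one_mul] at this
  have hx0 : x ≠ 0 := by rw [hx]; exact neg_ne_zero.2 hc
  -- local sizes
  have hloc : ∀ i, ht D (a, b, c) i ≤ 2 * max ‖D.σ i x‖ ‖D.σ i b‖ := by
    intro i
    have h1 := le_max_left ‖D.σ i x‖ ‖D.σ i b‖
    have h2 := le_max_right ‖D.σ i x‖ ‖D.σ i b‖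
    have h3 : 0 ≤ max ‖D.σ i x‖ ‖D.σ i b‖ := (norm_nonneg _).trans h1
    have h4 : ‖D.σ i a‖ ≤ ‖D.σ i x‖ + ‖D.σ i b‖ := by
      have : a = x - b := by rw [hxab]; ring
      rw [this, map_sub]; exact norm_sub_le _ _
    have h5 : ‖D.σ i c‖ = ‖D.σ i x‖ := by rw [hx, map_neg, norm_neg]
    simp only [ht]
    rw [h5]
    refine max_le (max_le ?_ ?_) ?_ <;> linarith
  by_cases hexc : x ^ k = b ^ k
  · -- all members are units
    left
    have h1 : IsUnit (x ^ k) := by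
      have := hxb.pow (m := k) (n := k)
      rw [← hexc] at this
      exact isCoprime_self.1 this
    have h2 : IsUnit x := (isUnit_pow_iff (by omega)).1 h1
    have h3 : ∀ i, ht D (a, b, c) i ≤ 2 * ‖D.σ i x‖ := by
      intro i
      have h4 : ‖D.σ i x‖ ^ k = ‖D.σ i b‖ ^ k := by
        rw [← norm_pow, ← norm_pow, ← map_pow, ← map_pow, hexc]
      have h5 : ‖D.σ i x‖ = ‖D.σ i b‖ :=
        (pow_left_inj₀ (norm_nonneg _) (norm_nonneg _) (by omega)).1 h4
      refine (hloc i).trans ?_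
      rw [← h5, max_self]
    calc ∏ i, ht D (a, b, c) i ≤ ∏ i, (2 * ‖D.σ i x‖) :=
          Finset.prod_le_prod (fun i _ => ht_nonneg D _ i) fun i _ => h3 i
      _ = 2 ^ n * ∏ i, ‖D.σ i x‖ := by
          rw [Finset.prod_mul_distrib, Finset.prod_const, Finset.card_univ]
      _ = 2 ^ n := by rw [norm_unit D h2, mul_one]
      _ ≤ K := by linarith
  · right
    set w : R := ∑ i ∈ Finset.range k, x ^ i * b ^ (k - 1 - i) with hw
    have hwa : w * a = x ^ k - b ^ k := by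
      have := (Commute.all x b).geom_sum₂_mul k
      rw [hw, ← this, hxab]; ring
    have hxk : x ^ k - b ^ k ≠ 0 := sub_ne_zero.2 hexc
    have hw0 : w ≠ 0 := by
      intro h0
      rw [h0, zero_mul] at hwa
      exact hxk hwa.symm
    refine ⟨(x ^ k - b ^ k, b ^ k, -x ^ k), ⟨⟨?_, by simp, hxk, pow_ne_zero _ hb,
      neg_ne_zero.2 (pow_ne_zero _ hx0)⟩, ?_⟩, ?_, w, hw0, ?_, k, ?_⟩
    · have h1 : IsCoprime (x ^ k) (b ^ k) := hxb.pow
      have h2 := h1.add_mul_left_left (-1)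
      simpa [sub_eq_add_neg] using h2
    · simp only
      obtain ⟨r, hr⟩ := hk' x
      obtain ⟨s, hs⟩ := hk' b
      refine ⟨-(b ^ k * r - x ^ k * s), ?_⟩
      linear_combination -b ^ k * hr + x ^ k * hs
    · intro i
      have h1 : max ‖D.σ i x‖ ‖D.σ i b‖ ^ k ≤ ht D (x ^ k - b ^ k, b ^ k, -x ^ k) i := by
        rcases max_cases ‖D.σ i x‖ ‖D.σ i b‖ with ⟨h2, -⟩ | ⟨h2, -⟩
        · rw [h2]
          refine le_trans (le_of_eq ?_) (ht_ge3 D (x ^ k - b ^ k, b ^ k, -x ^ k) i)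
          simp only
          rw [map_neg (D.σ i) (x ^ k), norm_neg, map_pow, norm_pow]
        · rw [h2]
          refine le_trans (le_of_eq ?_) (ht_ge2 D _ i)
          simp only
          rw [map_pow, norm_pow]
      calc ht D (a, b, c) i ^ k ≤ (2 * max ‖D.σ i x‖ ‖D.σ i b‖) ^ k :=
            pow_le_pow_left₀ (ht_nonneg D _ i) (hloc i) k
        _ = 2 ^ k * max ‖D.σ i x‖ ‖D.σ i b‖ ^ k := mul_pow _ _ _
        _ ≤ 2 ^ k * ht D (x ^ k - b ^ k, b ^ k, -x ^ k) i :=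
            mul_le_mul_of_nonneg_left h1 (by positivity)
        _ ≤ _ := mul_le_mul_of_nonneg_right (by linarith) (ht_nonneg D _ i)
    · intro i
      have hxi : ‖D.σ i x‖ ≤ ht D (a, b, c) i := by
        have h5 : ‖D.σ i c‖ = ‖D.σ i x‖ := by rw [hx, map_neg, norm_neg]
        rw [← h5]; exact ht_ge3 D (a, b, c) i
      have hbi : ‖D.σ i b‖ ≤ ht D (a, b, c) i := ht_ge2 D (a, b, c) i
      calc ‖D.σ i w‖ ≤ ∑ j ∈ Finset.range k, ‖D.σ i x‖ ^ j * ‖D.σ i b‖ ^ (k - 1 - j) := by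
            rw [hw, map_sum]
            refine (norm_sum_le _ _).trans (le_of_eq ?_)
            apply Finset.sum_congr rfl
            intro j _
            rw [map_mul, map_pow, map_pow, norm_mul, norm_pow, norm_pow]
        _ ≤ ∑ j ∈ Finset.range k, ht D (a, b, c) i ^ (k - 1) := by
            apply Finset.sum_le_sum
            intro j hj
            rw [Finset.mem_range] at hj
            calc ‖D.σ i x‖ ^ j * ‖D.σ i b‖ ^ (k - 1 - j)
                ≤ ht D (a, b, c) i ^ j * ht D (a, b, c) i ^ (k - 1 - j) := by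
                  gcongr
                  exact pow_nonneg (ht_nonneg D _ i) _
              _ = _ := by rw [← pow_add]; congr 1; omega
        _ = k * ht D (a, b, c) i ^ (k - 1) := by
            rw [Finset.sum_const, Finset.card_range, nsmul_eq_mul]
        _ ≤ _ := mul_le_mul_of_nonneg_right (by linarith) (pow_nonneg (ht_nonneg D _ i) _)
    · simp only
      obtain ⟨k', rfl⟩ : ∃ k', k = k' + 1 := ⟨k - 1, by omega⟩
      refine ⟨-((-1) ^ (k' + 1)) * (a * w) ^ k', ?_⟩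
      have hcx : c = -x := by rw [hx]; ring
      have e1 : (x ^ (k' + 1) - b ^ (k' + 1)) = w * a := hwa.symm
      have h1 : ((-1 : R) ^ (k' + 1)) * (-1) ^ (k' + 1) = 1 := by
        rw [← mul_pow]; simp
      rw [e1, hcx]
      have e2 : (a * b * -x * w) ^ (k' + 1) = (-1) ^ (k' + 1) * (a * w) ^ (k' + 1) * b ^ (k' + 1) *
          x ^ (k' + 1) := by
        rw [← mul_pow, ← mul_pow, ← mul_pow]; congr 1; ring
      rw [e2]
      ring

theorem abc_prod_of_dvd (D : Ar R) (N : ℕ)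
    (h : ABC D fun t => (N : R) ∣ t.1) : ABC D fun t => ((12 * N : ℕ) : R) ∣ t.1 * t.2.1 * t.2.2 := by
  have := isDomain D
  have := charZero D
  obtain ⟨C₁, hC₁, hlow⟩ := hom_lower (fun p => 27 * (p.1 * p.2 * (p.1 + p.2) / 2) ^ 2)
    (fun p => (p.1 ^ 2 + p.1 * p.2 + p.2 ^ 2) ^ 3) (by fun_prop) (by fun_prop) 6 (by norm_num)
    (fun t p => by simp only [Prod.smul_fst, Prod.smul_snd, smul_eq_mul]; ring)
    (fun t p => by simp only [Prod.smul_fst, Prod.smul_snd, smul_eq_mul]; ring)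
    (by
      rintro ⟨x, y⟩ h1 h2
      simp only at h1 h2
      have h3 : x * y * (x + y) / 2 = 0 := by
        have := (mul_eq_zero.1 h1).resolve_left (by norm_num)
        exact pow_eq_zero_iff (by norm_num) |>.1 this
      have h4 : x ^ 2 + x * y + y ^ 2 = 0 := pow_eq_zero_iff (by norm_num) |>.1 h2
      have h5 : x * y * (x + y) = 0 := by linear_combination 2 * h3
      rcases mul_eq_zero.1 h5 with h6 | h6
      · rcases mul_eq_zero.1 h6 with h7 | h7
        · have h8 : y ^ 2 = 0 := by linear_combination h4 - (x + y) * h7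
          rw [h7, (pow_eq_zero_iff (by norm_num)).1 h8]; rfl
        · have h8 : x ^ 2 = 0 := by linear_combination h4 - (x + y) * h7
          rw [h7, (pow_eq_zero_iff (by norm_num)).1 h8]; rfl
      · have h7 : y = -x := by linear_combination h6
        rw [h7] at h4
        have h8 : x ^ 2 = 0 := by linear_combination h4
        have h9 := (pow_eq_zero_iff (by norm_num)).1 h8
        rw [h7, h9]; simp)
  obtain ⟨C₂, hC₂, hup⟩ := hom_upper (fun p => (p.1 - p.2) * (2 * p.1 + p.2) * (p.1 + 2 * p.2) *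
    (p.1 ^ 2 + p.1 * p.2 + p.2 ^ 2)) (by fun_prop) 5
    (fun t p => by simp only [Prod.smul_fst, Prod.smul_snd, smul_eq_mul]; ring)
  set K : ℝ := 1 + 2 ^ 6 * C₁ + C₂ with hK
  refine transferTri D 6 5 K (by rw [hK]; nlinarith) one_pos (by norm_num) ?_ h
  rintro ⟨X, Y, Z⟩ ht hdvd
  obtain ⟨hab, hsum, ha, hb, hc⟩ := ht
  simp only at hab hsum ha hb hc hdvd
  right
  have hZ : Z = -(X + Y) := by linear_combination hsum
  obtain ⟨s, hs⟩ := hdvd
  push_cast at hs
  set H : R := 6 * N * (-s) with hH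
  have hP : X * Y * (X + Y) = 2 * H := by
    rw [hH]; rw [hZ] at hs; linear_combination -hs
  have hXY0 : X + Y ≠ 0 := by
    intro h0; rw [hZ, h0, neg_zero] at hc; exact hc rfl
  have h2 : (2 : R) ≠ 0 := two_ne_zero
  have hP0 : X * Y * (X + Y) ≠ 0 := mul_ne_zero (mul_ne_zero ha hb) hXY0
  have hH0 : H ≠ 0 := by intro h0; rw [h0, mul_zero] at hP; exact hP0 hP
  set W : R := X ^ 3 + X ^ 2 * Y - 2 * X * Y ^ 2 - Y ^ 3 + H with hW
  set V : R := X ^ 2 + X * Y + Y ^ 2 with hV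
  have hid : 27 * H ^ 2 + W ^ 2 = V ^ 3 := by
    rw [hW, hV]
    linear_combination (-(14 * H + (X ^ 3 + X ^ 2 * Y - 2 * X * Y ^ 2 - Y ^ 3) +
      7 * (X * Y * (X + Y)))) * hP
  have h2W : 2 * W = (X - Y) * (2 * X + Y) * (X + 2 * Y) := by
    rw [hW]; linear_combination -hP
  -- coprimality
  have hcop : IsCoprime (27 * H ^ 2) (W ^ 2) := by
    apply isCoprime_of_max
    intro P hPm h1 h3
    have hV3 : V ^ 3 ∈ P := by rw [← hid]; exact P.add_mem h1 h3
    have hVP : V ∈ P := hPm.isPrime.mem_of_pow_mem _ hV3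
    have hHP : H ∈ P := by
      rcases hPm.isPrime.mem_or_mem h1 with h4 | h4
      · have h5 : (3 : R) ^ 3 ∈ P := by norm_num; exact h4
        have h6 : (3 : R) ∈ P := hPm.isPrime.mem_of_pow_mem _ h5
        exact mem_of_dvd ⟨2 * N * (-s), by rw [hH]; ring⟩ h6
      · exact hPm.isPrime.mem_of_pow_mem _ h4
    have hPP : X * Y * (X + Y) ∈ P := by rw [hP]; exact P.mul_mem_left _ hHP
    rcases hPm.isPrime.mem_or_mem hPP with h4 | h4
    · rcases hPm.isPrime.mem_or_mem h4 with h5 | h5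
      · have h6 : Y ^ 2 ∈ P := by
          have e : Y ^ 2 = V - X * (X + Y) := by rw [hV]; ring
          rw [e]; exact P.sub_mem hVP (P.mul_mem_right _ h5)
        exact not_both hab hPm h5 (hPm.isPrime.mem_of_pow_mem _ h6)
      · have h6 : X ^ 2 ∈ P := by
          have e : X ^ 2 = V - Y * (X + Y) := by rw [hV]; ring
          rw [e]; exact P.sub_mem hVP (P.mul_mem_right _ h5)
        exact not_both hab hPm (hPm.isPrime.mem_of_pow_mem _ h6) h5
    · have h6 : X ^ 2 ∈ P := by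
        have e : X ^ 2 = V - Y * (X + Y) := by rw [hV]; ring
        rw [e]; exact P.sub_mem hVP (P.mul_mem_left _ h4)
      have h7 := hPm.isPrime.mem_of_pow_mem _ h6
      have h8 : Y ∈ P := by
        have e : Y = (X + Y) - X := by ring
        rw [e]; exact P.sub_mem h4 h7
      exact not_both hab hPm h7 h8
  have htri : Tri (27 * H ^ 2, W ^ 2, -V ^ 3) :=
    tri_of D hcop (by rw [hid]; ring) (mul_ne_zero (by norm_num) (pow_ne_zero _ hH0)) (n := 27)
      (by norm_num) ⟨H ^ 2, by push_cast; ring⟩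
  have hW0 : W ≠ 0 := fun h0 => htri.2.2.2.1 (by simp only; rw [h0]; simp)
  have hV0 : V ≠ 0 := fun h0 => htri.2.2.2.2 (by simp only; rw [h0]; simp)
  -- local sizes
  have hloc : ∀ i, ht D (X, Y, Z) i ≤ 2 * ‖(D.σ i X, D.σ i Y)‖ := by
    intro i
    rw [Prod.norm_def]
    simp only [ht]
    have h1 := le_max_left ‖D.σ i X‖ ‖D.σ i Y‖
    have h3 := le_max_right ‖D.σ i X‖ ‖D.σ i Y‖
    have h4 : ‖D.σ i Z‖ ≤ ‖D.σ i X‖ + ‖D.σ i Y‖ := by
      rw [hZ, map_neg, norm_neg, map_add]; exact norm_add_le _ _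
    have h5 : 0 ≤ ‖D.σ i X‖ := norm_nonneg _
    refine max_le (max_le ?_ ?_) ?_ <;> linarith
  have hnp : ∀ i, ‖(D.σ i X, D.σ i Y)‖ ≤ ht D (X, Y, Z) i := by
    intro i
    rw [Prod.norm_def]
    exact max_le (ht_ge1 D (X, Y, Z) i) (ht_ge2 D (X, Y, Z) i)
  refine ⟨(27 * H ^ 2, W ^ 2, -V ^ 3), ⟨htri, ⟨6 * 27 * H * (-s), by simp only; rw [hH]; ring⟩⟩, ?_,
    (X - Y) * (2 * X + Y) * (X + 2 * Y) * V, ?_, ?_, 5, ?_⟩
  · intro i
    have h1 := hlow (D.σ i X, D.σ i Y)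
    simp only at h1
    have e1 : D.σ i X * D.σ i Y * (D.σ i X + D.σ i Y) / 2 = D.σ i H := by
      have := congrArg (D.σ i) hP
      simp only [map_mul, map_add, map_ofNat] at this
      rw [this]; ring
    rw [e1] at h1
    have h3 : max ‖27 * D.σ i H ^ 2‖ ‖(D.σ i X ^ 2 + D.σ i X * D.σ i Y + D.σ i Y ^ 2) ^ 3‖ ≤
        ht D (27 * H ^ 2, W ^ 2, -V ^ 3) i := by
      apply max_le
      · refine le_trans (le_of_eq ?_) (ht_ge1 D _ i)
        simp only [map_mul, map_pow, map_ofNat]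
      · refine le_trans (le_of_eq ?_) (ht_ge3 D _ i)
        simp only [map_neg, norm_neg, hV, map_pow, map_add, map_mul]
    calc ht D (X, Y, Z) i ^ 6 ≤ (2 * ‖(D.σ i X, D.σ i Y)‖) ^ 6 :=
          pow_le_pow_left₀ (ht_nonneg D _ i) (hloc i) 6
      _ = 2 ^ 6 * ‖(D.σ i X, D.σ i Y)‖ ^ 6 := mul_pow _ _ _
      _ ≤ 2 ^ 6 * (C₁ * ht D (27 * H ^ 2, W ^ 2, -V ^ 3) i) := by
          apply mul_le_mul_of_nonneg_left _ (by norm_num)
          exact h1.trans (mul_le_mul_of_nonneg_left h3 hC₁.le)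
      _ = 2 ^ 6 * C₁ * ht D (27 * H ^ 2, W ^ 2, -V ^ 3) i := by ring
      _ ≤ _ := mul_le_mul_of_nonneg_right (by rw [hK]; linarith) (ht_nonneg D _ i)
  · rw [← h2W]; exact mul_ne_zero (mul_ne_zero h2 hW0) hV0
  · intro i
    have h1 := hup (D.σ i X, D.σ i Y)
    have e1 : D.σ i ((X - Y) * (2 * X + Y) * (X + 2 * Y) * V) = (D.σ i X - D.σ i Y) *
        (2 * D.σ i X + D.σ i Y) * (D.σ i X + 2 * D.σ i Y) *
        (D.σ i X ^ 2 + D.σ i X * D.σ i Y + D.σ i Y ^ 2) := by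
      simp only [hV, map_mul, map_sub, map_add, map_pow, map_ofNat]
    rw [e1]
    calc _ ≤ C₂ * ‖(D.σ i X, D.σ i Y)‖ ^ 5 := h1
      _ ≤ C₂ * ht D (X, Y, Z) i ^ 5 := by
          apply mul_le_mul_of_nonneg_left _ hC₂.le
          exact pow_le_pow_left₀ (norm_nonneg _) (hnp i) 5
      _ ≤ _ := mul_le_mul_of_nonneg_right (by rw [hK]; nlinarith) (pow_nonneg (ht_nonneg D _ i) _)
  · simp only
    rw [← h2W, hZ]
    have e : (X * Y * -(X + Y) * (2 * W * V)) ^ 5 = (27 * H ^ 2 * W ^ 2 * -V ^ 3) *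
        (2 ^ 5 * (2 ^ 5 * 8 * (N * s) ^ 3 * -1) * W ^ 3 * V ^ 2) := by
      have e1 : X * Y * -(X + Y) = -(2 * H) := by linear_combination -hP
      have e2 : H ^ 3 = -(27 * 8 * (N * s) ^ 3) := by rw [hH]; ring
      rw [e1]
      have e3 : (-(2 * H) * (2 * W * V)) ^ 5 = -(2 ^ 5 * 2 ^ 5 * H ^ 2 * (H ^ 3) * W ^ 5 * V ^ 5) := by
        ring
      rw [e3, e2]; ring
    rw [e]
    exact Dvd.intro _ rfl

/-- **It is enough to know the inequality for the triples with `N ∣ a`.** -/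
theorem near (D : Ar R) (N : ℕ) (hN : 1 ≤ N) (h : ABC D fun t => (N : R) ∣ t.1) :
    ABC D fun _ => True :=
  abc_of_dvd_prod D (12 * N) (by omega) (abc_prod_of_dvd D N h)

end Pool.Agent.N251.GA
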