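import Mathlib
import Pool.Agent.N251.GA.Tools

/-!
# The statements of the steps
-/

set_option autoImplicit false

namespace Pool.Agent.N251.GA

open NumberField IsDedekindDomain

/-- Belyi's polynomial -/
def LeafTwo : Prop := ∀ (R : Type) [CommRing R] (D : Ar R) (n N : ℕ), 2 ≤ n → 1 ≤ N →
  TwoCusps D n N → ABC D fun _ => True

def LeafEven : Prop := ∀ (R : Type) [CommRing R] (D : Ar R) (k N : ℕ), 2 ≤ k → 1 ≤ N →
  OneCusp D (2 * k) 2 N → ABC D fun _ => True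

def LeafOdd : Prop := ∀ (R : Type) [CommRing R] (D : Ar R) (j N : ℕ), 1 ≤ j → 1 ≤ N →
  OneCusp D (2 * j + 1) 2 N → TwoCusps D (2 * j + 1) (N * ((2 * j + 1) * (2 * j)))

def LeafCubes : Prop := ∀ (R : Type) [CommRing R] (D : Ar R) (N : ℕ), 1 ≤ N →
  OneCusp D 3 3 N → ABC D fun _ => True

def LeafFourth : Prop := ∀ (R : Type) [CommRing R] (D : Ar R) (N : ℕ), 1 ≤ N →
  OneCusp D 4 4 N → ABC D fun _ => True

def LeafMean : Prop := ∀ (R : Type) [CommRing R] (D : Ar R) (a b p q L N : ℕ), 1 ≤ a → 1 ≤ b →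
  1 ≤ p → 1 ≤ q → p * a = L → q * b = L → 3 ≤ L → 1 ≤ N → OneCusp D (a + b) L N →
    OneCusp D p q (N * ((a + b) * (2 * ((a + b) * a * b))))

def LeafMean' : Prop := ∀ (R : Type) [CommRing R] (D : Ar R) (p q N : ℕ), 2 ≤ p → 2 ≤ q → 1 ≤ N →
  OneCusp D p (q * (p + 1)) N → OneCusp D p q (N * (p * (2 * ((1 + p) * 1 * p))))

def LeafMul : Prop := ∀ (R : Type) [CommRing R] (D : Ar R) (m p q N : ℕ), 1 ≤ m → 2 ≤ p → 2 ≤ q →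
  5 ≤ p + q → OneCusp D (p * m) (q * m) N → OneCusp D p q N

def LeafFwdOne : Prop := ∀ (R : Type) [CommRing R] (D : Ar R) (p q N : ℕ), 1 ≤ p → 1 ≤ q →
  (ABC D fun _ => True) → OneCusp D p q N

def LeafFwdTwo : Prop := ∀ (R : Type) [CommRing R] (D : Ar R) (n N : ℕ), 1 ≤ n →
  (ABC D fun _ => True) → TwoCusps D n N

/-- the members are `A x ^ p, B y ^ q, C z ^ r`, and `N` divides one of them -/
def Sg {R : Type} [CommRing R] (p q r : ℕ) (A B C : ℤ) (N : ℕ) (t : R × R × R) : Prop :=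
  (∃ x y z : R, t.1 = A * x ^ p ∧ t.2.1 = B * y ^ q ∧ t.2.2 = C * z ^ r) ∧
    ((N : R) ∣ t.1 ∨ (N : R) ∣ t.2.1 ∨ (N : R) ∣ t.2.2)

def LeafG2 : Prop := ∀ (R : Type) [CommRing R] (D : Ar R) (n N : ℕ), 1 ≤ n → 1 ≤ N →
  ABC D (Sg 2 2 n 1 (-1) (-1) N) → ABC D fun _ => True

def LeafG3 : Prop := ∀ (R : Type) [CommRing R] (D : Ar R) (N : ℕ), 1 ≤ N →
  ABC D (Sg 2 3 3 1 1 (-1) N) → ABC D fun _ => True

def LeafG4 : Prop := ∀ (R : Type) [CommRing R] (D : Ar R) (N : ℕ), 1 ≤ N →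
  ABC D (Sg 2 3 4 1 (-1) 108 N) → ABC D fun _ => True

def LeafG5 : Prop := ∀ (R : Type) [CommRing R] (D : Ar R) (N : ℕ), 1 ≤ N →
  ABC D (Sg 2 3 5 1 (-1) (-1728) N) → ABC D fun _ => True

/-- the radical of a Gaussian integer: the product of `|Q|` over the Gaussian primes `Q` dividing
it, one from each class of associates, namely the one with `Re Q > 0` and `Im Q ≥ 0` -/
noncomputable def radG (n : GaussianInt) : ℝ :=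
  ∏ᶠ Q ∈ {Q : GaussianInt | Prime Q ∧ Q ∣ n ∧ (0 < Q.re ∧ 0 ≤ Q.im)}, ‖GaussianInt.toComplex Q‖

def LeafGauss : Prop :=
  (∀ x : GaussianInt, x ≠ 0 → 1 ≤ ‖GaussianInt.toComplex x‖) ∧
  (∀ x : GaussianInt, 1 ≤ radG x) ∧
  (∀ x : GaussianInt, x ≠ 0 → radG x ≤ ‖GaussianInt.toComplex x‖) ∧
  (∀ x y : GaussianInt, x ≠ 0 → y ≠ 0 → radG (x * y) ≤ radG x * radG y) ∧
  (∀ (x y : GaussianInt) (k : ℕ), y ≠ 0 → x ∣ y ^ k → radG x ≤ radG y) ∧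
  (∀ N : ℕ, N ≠ 0 → ∃ k : ℕ, 1 ≤ k ∧ ∀ x : GaussianInt, (N : GaussianInt) ∣ x ^ k * (x ^ k - 1))

/-- the radical of an algebraic integer: the product of the norms of the prime ideals which
contain it -/
noncomputable def radK {K : Type} [Field K] [NumberField K] (x : 𝓞 K) : ℝ :=
  ∏ᶠ (P : HeightOneSpectrum (𝓞 K)) (_ : x ∈ P.asIdeal), (Ideal.absNorm P.asIdeal : ℝ)

def LeafNF : Prop := ∀ (K : Type) [Field K] [NumberField K],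
  (∀ x : 𝓞 K, x ≠ 0 → 1 ≤ ∏ φ : K →+* ℂ, ‖φ x‖) ∧
  (∀ x : 𝓞 K, 1 ≤ radK x) ∧
  (∀ x : 𝓞 K, x ≠ 0 → radK x ≤ ∏ φ : K →+* ℂ, ‖φ x‖) ∧
  (∀ x y : 𝓞 K, x ≠ 0 → y ≠ 0 → radK (x * y) ≤ radK x * radK y) ∧
  (∀ (x y : 𝓞 K) (k : ℕ), y ≠ 0 → x ∣ y ^ k → radK x ≤ radK y) ∧
  (∀ N : ℕ, N ≠ 0 → ∃ k : ℕ, 1 ≤ k ∧ ∀ x : 𝓞 K, (N : 𝓞 K) ∣ x ^ k * (x ^ k - 1))

end Pool.Agent.N251.GA
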