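import Mathlib
import Pool.Agent.N251.GA.Leaves

/-!
# The statements of the steps: conjugate triples
-/

set_option autoImplicit false

namespace Pool.Agent.N251.GA

open NumberField IsDedekindDomain

/-- the radical of an integer -/
noncomputable def radZ (n : ℤ) : ℝ := ∏ p ∈ n.natAbs.primeFactors, (p : ℝ)

def LeafZ : Prop :=
  (∀ x : ℤ, x ≠ 0 → 1 ≤ ‖(x : ℂ)‖) ∧
  (∀ x : ℤ, 1 ≤ radZ x) ∧
  (∀ x : ℤ, x ≠ 0 → radZ x ≤ ‖(x : ℂ)‖) ∧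
  (∀ x y : ℤ, x ≠ 0 → y ≠ 0 → radZ (x * y) ≤ radZ x * radZ y) ∧
  (∀ (x y : ℤ) (k : ℕ), y ≠ 0 → x ∣ y ^ k → radZ x ≤ radZ y) ∧
  (∀ N : ℕ, N ≠ 0 → ∃ k : ℕ, 1 ≤ k ∧ ∀ x : ℤ, (N : ℤ) ∣ x ^ k * (x ^ k - 1))

/-- the inequality `rad (t (s² - m t²)) ≥ κ max (|s|, |t|) ^ (1 - ε)` for the coprime `s`, `t` with
`s` coprime to `m`, `t ≠ 0`, `s² ≠ m t²` and `N ∣ t` -/
def FormLow {R : Type} [CommRing R] (D : Ar R) (m : ℤ) (N : ℕ) : Prop :=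
  Low D (fun s : R × R => IsCoprime s.1 s.2 ∧ IsCoprime s.1 (m : R) ∧ s.2 ≠ 0 ∧
      s.1 ^ 2 ≠ m * s.2 ^ 2 ∧ (N : R) ∣ s.2)
    (fun s i => max ‖D.σ i s.1‖ ‖D.σ i s.2‖) (fun s => s.2 * (s.1 ^ 2 - m * s.2 ^ 2)) 1

def LeafSym4 : Prop := ∀ (R : Type) [CommRing R] (D : Ar R) (N : ℕ), 1 ≤ N →
  FormLow D (-1) N → ABC D fun _ => True

def LeafSym5 : Prop := ∀ (R : Type) [CommRing R] (D : Ar R) (N : ℕ), 1 ≤ N →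
  FormLow D 5 N → ABC D fun _ => True

def LeafSymFwd : Prop := ∀ (R : Type) [CommRing R] (D : Ar R) (m : ℤ) (N : ℕ), m ≠ 0 →
  (ABC D fun _ => True) → FormLow D m N

/-- the Gaussian radical of an integer -/
def LeafRadGZ : Prop := ∀ n : ℤ, n ≠ 0 →
  radG (n : GaussianInt) ≤ radZ n ∧ radZ n ≤ 2 * radG (n : GaussianInt)

/-- the radical of an integer in `ℚ(√5)` -/
def LeafRadKZ : Prop := ∀ (K : Type) [Field K] [NumberField K], Module.finrank ℚ K = 2 →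
  (∃ s : K, s ^ 2 = 5) → ∀ n : ℤ, n ≠ 0 →
    radK (n : 𝓞 K) ≤ radZ n ^ 2 ∧ radZ n ^ 2 ≤ 5 * radK (n : 𝓞 K)

/-- the inequality of the abc conjecture over `ℤ[i]` for the triples `a + ā = c` with `N ∣ c` -/
def SymG (N : ℕ) : Prop := ∀ ε : ℝ, 0 < ε → ∃ κ : ℝ, 0 < κ ∧ ∀ a : GaussianInt,
  IsCoprime a (star a) → a + star a ≠ 0 → (N : GaussianInt) ∣ a + star a →
    κ * (max (max ‖GaussianInt.toComplex a‖ ‖GaussianInt.toComplex (star a)‖)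
      ‖GaussianInt.toComplex (a + star a)‖) ^ (1 - ε) ≤ radG (a * star a * (a + star a))

/-- the inequality over `ℤ` -/
def AbcZ : Prop := ∀ ε : ℝ, 0 < ε → ∃ κ : ℝ, 0 < κ ∧ ∀ a b c : ℤ, IsCoprime a b → a + b = c →
  a * b * c ≠ 0 → κ * (max (max |(a : ℝ)| |(b : ℝ)|) |(c : ℝ)|) ^ (1 - ε) ≤ radZ (a * b * c)

def LeafSymG : Prop := LeafZ → LeafSym4 → LeafSymFwd → LeafRadGZ → ∀ N : ℕ, 1 ≤ N → (SymG N ↔ AbcZ)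

/-- the inequality of the abc conjecture over the integers of `K = ℚ(√5)` for the triples
`(a, - ā, ā - a)` with `N ∣ a - ā`; `τ` is the nontrivial automorphism of `𝓞 K` -/
def SymK {K : Type} [Field K] [NumberField K] (τ : 𝓞 K →+* 𝓞 K) (N : ℕ) : Prop :=
  ∀ ε : ℝ, 0 < ε → ∃ κ : ℝ, 0 < κ ∧ ∀ a : 𝓞 K,
    IsCoprime a (τ a) → a ≠ 0 → a ≠ τ a → (N : 𝓞 K) ∣ a - τ a →
      κ * (∏ φ : K →+* ℂ, max (max ‖φ a‖ ‖φ (τ a)‖) ‖φ (a - τ a)‖) ^ (1 - ε) ≤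
        radK (a * τ a * (a - τ a))

def LeafSymK : Prop := LeafZ → LeafSym5 → LeafSymFwd → LeafRadKZ → ∀ (K : Type) [Field K]
  [NumberField K], Module.finrank ℚ K = 2 → (∃ s : K, s ^ 2 = 5) → ∀ τ : 𝓞 K →+* 𝓞 K,
    τ ≠ RingHom.id (𝓞 K) → ∀ N : ℕ, 1 ≤ N → (SymK τ N ↔ AbcZ)

end Pool.Agent.N251.GA
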