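import Mathlib
import Pool.Agent.N251.GA.Leaves

/-!
# Radical inequalities in rings of integers: the power map, permutations, the spherical signatures
-/

set_option autoImplicit false

namespace Pool.Agent.N251.GA

variable {R : Type} [CommRing R]

/-- the map `(a, b, c) ↦ ((-c) ^ k - b ^ k, b ^ k, -(-c) ^ k)` -/
theorem pow_map (D : Ar R) (k : ℕ) (hk : 1 ≤ k) (T T' : R × R × R → Prop)
    (hT : ∀ a b c : R, a + b + c = 0 → T (a, b, c) → T' ((-c) ^ k - b ^ k, b ^ k, -(-c) ^ k))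
    (h : ABC D T') : ABC D T := by
  have := isDomain D
  set n := Fintype.card D.ι with hn
  set K : ℝ := 2 ^ n + 2 ^ k + k with hK
  have h2n : (1 : ℝ) ≤ 2 ^ n := one_le_pow₀ (by norm_num)
  have h2k : (1 : ℝ) ≤ 2 ^ k := one_le_pow₀ (by norm_num)
  have hkk : (0 : ℝ) ≤ k := Nat.cast_nonneg k
  refine transferTri D k (k - 1) K (by linarith) one_pos ?_ ?_ h
  · rw [Nat.cast_sub hk]; push_cast; linarith
  rintro ⟨a, b, c⟩ ht hTT
  obtain ⟨hab, hsum, ha, hb, hc⟩ := ht
  simp only at hab hsum ha hb hc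
  have hT' := hT a b c hsum hTT
  set x : R := -c with hx
  have hxab : x = a + b := by rw [hx]; linear_combination -hsum
  have hxb : IsCoprime x b := by
    rw [hxab]
    have := hab.add_mul_right_left 1
    rwa [one_mul] at this
  have hx0 : x ≠ 0 := by rw [hx]; exact neg_ne_zero.2 hc
  have hloc : ∀ i, ht D (a, b, c) i ≤ 2 * max ‖D.σ i x‖ ‖D.σ i b‖ := by
    intro i
    have h1 := le_max_left ‖D.σ i x‖ ‖D.σ i b‖
    have h2 := le_max_right ‖D.σ i x‖ ‖D.σ i b‖
    have h3 : 0 ≤ max ‖D.σ i x‖ ‖D.σ i b‖ := (norm_nonneg _).trans h1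
    have h4 : ‖D.σ i a‖ ≤ ‖D.σ i x‖ + ‖D.σ i b‖ := by
      have : a = x - b := by rw [hxab]; ring
      rw [this, map_sub]; exact norm_sub_le _ _
    have h5 : ‖D.σ i c‖ = ‖D.σ i x‖ := by rw [hx, map_neg, norm_neg]
    simp only [ht]
    rw [h5]
    refine max_le (max_le ?_ ?_) ?_ <;> linarith
  by_cases hexc : x ^ k = b ^ k
  · left
    have h1 : IsUnit (x ^ k) := by
      have := hxb.pow (m := k) (n := k)
      rw [← hexc] at this
      exact isCoprime_self.1 this
    have h2 : IsUnit x := (isUnit_pow_iff (by omega)).1 h1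
    have h3 : ∀ i, ht D (a, b, c) i ≤ 2 * ‖D.σ i x‖ := by
      intro i
      have h4 : ‖D.σ i x‖ ^ k = ‖D.σ i b‖ ^ k := by
        rw [← norm_pow, ← norm_pow, ← map_pow, ← map_pow, hexc]
      have h5 : ‖D.σ i x‖ = ‖D.σ i b‖ :=
        (pow_left_inj₀ (norm_nonneg _) (norm_nonneg _) (by omega)).1 h4
      refine (hloc i).trans ?_
      rw [← h5, max_self]
    calc ∏ i, ht D (a, b, c) i ≤ ∏ i, (2 * ‖D.σ i x‖) :=
          Finset.prod_le_prod (fun i _ => ht_nonneg D _ i) fun i _ => h3 i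
      _ = 2 ^ n * ∏ i, ‖D.σ i x‖ := by
          rw [Finset.prod_mul_distrib, Finset.prod_const, Finset.card_univ]
      _ = 2 ^ n := by rw [norm_unit D h2, mul_one]
      _ ≤ K := by linarith
  · right
    set w : R := ∑ i ∈ Finset.range k, x ^ i * b ^ (k - 1 - i) with hw
    have hwa : w * a = x ^ k - b ^ k := by
      have := (Commute.all x b).geom_sum₂_mul k
      rw [hw, ← this, hxab]; ring
    have hxk : x ^ k - b ^ k ≠ 0 := sub_ne_zero.2 hexc
    have hw0 : w ≠ 0 := by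
      intro h0
      rw [h0, zero_mul] at hwa
      exact hxk hwa.symm
    refine ⟨(x ^ k - b ^ k, b ^ k, -x ^ k), ⟨⟨?_, by simp, hxk, pow_ne_zero _ hb,
      neg_ne_zero.2 (pow_ne_zero _ hx0)⟩, hT'⟩, ?_, w, hw0, ?_, k, ?_⟩
    · have h1 : IsCoprime (x ^ k) (b ^ k) := hxb.pow
      have h2 := h1.add_mul_left_left (-1)
      simpa [sub_eq_add_neg] using h2
    · intro i
      have h1 : max ‖D.σ i x‖ ‖D.σ i b‖ ^ k ≤ ht D (x ^ k - b ^ k, b ^ k, -x ^ k) i := by
        rcases max_cases ‖D.σ i x‖ ‖D.σ i b‖ with ⟨h2, -⟩ | ⟨h2, -⟩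
        · rw [h2]
          refine le_trans (le_of_eq ?_) (ht_ge3 D (x ^ k - b ^ k, b ^ k, -x ^ k) i)
          simp only
          rw [map_neg (D.σ i) (x ^ k), norm_neg, map_pow, norm_pow]
        · rw [h2]
          refine le_trans (le_of_eq ?_) (ht_ge2 D _ i)
          simp only
          rw [map_pow, norm_pow]
      calc ht D (a, b, c) i ^ k ≤ (2 * max ‖D.σ i x‖ ‖D.σ i b‖) ^ k :=
            pow_le_pow_left₀ (ht_nonneg D _ i) (hloc i) k
        _ = 2 ^ k * max ‖D.σ i x‖ ‖D.σ i b‖ ^ k := mul_pow _ _ _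
        _ ≤ 2 ^ k * ht D (x ^ k - b ^ k, b ^ k, -x ^ k) i :=
            mul_le_mul_of_nonneg_left h1 (by positivity)
        _ ≤ _ := mul_le_mul_of_nonneg_right (by linarith) (ht_nonneg D _ i)
    · intro i
      have hxi : ‖D.σ i x‖ ≤ ht D (a, b, c) i := by
        have h5 : ‖D.σ i c‖ = ‖D.σ i x‖ := by rw [hx, map_neg, norm_neg]
        rw [← h5]; exact ht_ge3 D (a, b, c) i
      have hbi : ‖D.σ i b‖ ≤ ht D (a, b, c) i := ht_ge2 D (a, b, c) i
      calc ‖D.σ i w‖ ≤ ∑ j ∈ Finset.range k, ‖D.σ i x‖ ^ j * ‖D.σ i b‖ ^ (k - 1 - j) := by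
            rw [hw, map_sum]
            refine (norm_sum_le _ _).trans (le_of_eq ?_)
            apply Finset.sum_congr rfl
            intro j _
            rw [map_mul, map_pow, map_pow, norm_mul, norm_pow, norm_pow]
        _ ≤ ∑ j ∈ Finset.range k, ht D (a, b, c) i ^ (k - 1) := by
            apply Finset.sum_le_sum
            intro j hj
            rw [Finset.mem_range] at hj
            calc ‖D.σ i x‖ ^ j * ‖D.σ i b‖ ^ (k - 1 - j)
                ≤ ht D (a, b, c) i ^ j * ht D (a, b, c) i ^ (k - 1 - j) := by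
                  gcongr
                  exact pow_nonneg (ht_nonneg D _ i) _
              _ = _ := by rw [← pow_add]; congr 1; omega
        _ = k * ht D (a, b, c) i ^ (k - 1) := by
            rw [Finset.sum_const, Finset.card_range, nsmul_eq_mul]
        _ ≤ _ := mul_le_mul_of_nonneg_right (by linarith) (pow_nonneg (ht_nonneg D _ i) _)
    · simp only
      obtain ⟨k', rfl⟩ : ∃ k', k = k' + 1 := ⟨k - 1, by omega⟩
      refine ⟨-((-1) ^ (k' + 1)) * (a * w) ^ k', ?_⟩
      have hcx : c = -x := by rw [hx]; ring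
      have e1 : (x ^ (k' + 1) - b ^ (k' + 1)) = w * a := hwa.symm
      have h1 : ((-1 : R) ^ (k' + 1)) * (-1) ^ (k' + 1) = 1 := by
        rw [← mul_pow]; simp
      rw [e1, hcx]
      have e2 : (a * b * -x * w) ^ (k' + 1) = (-1) ^ (k' + 1) * (a * w) ^ (k' + 1) * b ^ (k' + 1) *
          x ^ (k' + 1) := by
        rw [← mul_pow, ← mul_pow, ← mul_pow]; congr 1; ring
      rw [e2]
      ring

/-- pulling back along a map of the objects which changes neither sizes nor elements -/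
theorem low_comap (D : Ar R) {S S' : Type} {P : S → Prop} {P' : S' → Prop} {M : S → D.ι → ℝ}
    {M' : S' → D.ι → ℝ} {F : S → R} {F' : S' → R} {θ : ℝ} (f : S → S') (hP : ∀ s, P s → P' (f s))
    (hM : ∀ s i, M s i = M' (f s) i) (hF : ∀ s, F s = F' (f s)) (h : Low D P' M' F' θ) :
    Low D P M F θ := by
  intro ε hε
  obtain ⟨κ, hκ0, hκ⟩ := h ε hε
  refine ⟨κ, hκ0, fun s hs => ?_⟩
  have h1 := hκ (f s) (hP s hs)
  rw [hF]
  simp only [hM]
  exact h1

theorem sg_swap12 (D : Ar R) {p q r : ℕ} {A B C : ℤ} {N : ℕ} (h : ABC D (Sg q p r B A C N)) :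
    ABC D (Sg p q r A B C N) := by
  refine low_comap D (fun t : R × R × R => (t.2.1, t.1, t.2.2)) ?_ ?_ ?_ h
  · rintro ⟨a, b, c⟩ ⟨⟨h1, h2, h3, h4, h5⟩, ⟨x, y, z, h6, h7, h8⟩, h9⟩
    refine ⟨⟨h1.symm, ?_, h4, h3, h5⟩, ⟨y, x, z, h7, h6, h8⟩, ?_⟩
    · simp only at h2 ⊢; rw [← h2]; ring
    · rcases h9 with h9 | h9 | h9
      · exact Or.inr (Or.inl h9)
      · exact Or.inl h9
      · exact Or.inr (Or.inr h9)
  · rintro ⟨a, b, c⟩ i
    simp only [ht]
    rw [max_comm ‖D.σ i a‖]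
  · rintro ⟨a, b, c⟩
    simp only
    ring

theorem sg_swap23 (D : Ar R) {p q r : ℕ} {A B C : ℤ} {N : ℕ} (h : ABC D (Sg p r q A C B N)) :
    ABC D (Sg p q r A B C N) := by
  refine low_comap D (fun t : R × R × R => (t.1, t.2.2, t.2.1)) ?_ ?_ ?_ h
  · rintro ⟨a, b, c⟩ ⟨⟨h1, h2, h3, h4, h5⟩, ⟨x, y, z, h6, h7, h8⟩, h9⟩
    simp only at h1 h2 h3 h4 h5 h6 h7 h8 h9
    refine ⟨⟨?_, ?_, h3, h5, h4⟩, ⟨x, z, y, h6, h8, h7⟩, ?_⟩
    · have hc : c = -(b + a * 1) := by linear_combination h2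
      simp only
      rw [hc]
      exact (h1.add_mul_left_right 1).neg_right
    · simp only; rw [← h2]; ring
    · rcases h9 with h9 | h9 | h9
      · exact Or.inl h9
      · exact Or.inr (Or.inr h9)
      · exact Or.inr (Or.inl h9)
  · rintro ⟨a, b, c⟩ i
    simp only [ht]
    rw [max_assoc, max_assoc, max_comm ‖D.σ i b‖]
  · rintro ⟨a, b, c⟩
    simp only
    ring

/-- the existence of coefficients for a signature -/
def HasGood (p q r : ℕ) : Prop :=
  ∃ A B C : ℤ, A ≠ 0 ∧ B ≠ 0 ∧ C ≠ 0 ∧ A * B * C ∣ 1728 ∧ ∀ (R : Type) [CommRing R] (D : Ar R)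
    (N : ℕ), 1 ≤ N → ABC D (Sg p q r A B C N) → ABC D fun _ => True

theorem HasGood.swap12 {p q r : ℕ} (h : HasGood p q r) : HasGood q p r := by
  obtain ⟨A, B, C, hA, hB, hC, hd, h⟩ := h
  exact ⟨B, A, C, hB, hA, hC, by rwa [mul_comm B A], fun R _ D N hN h1 => h R D N hN (sg_swap12 D h1)⟩

theorem HasGood.swap23 {p q r : ℕ} (h : HasGood p q r) : HasGood p r q := by
  obtain ⟨A, B, C, hA, hB, hC, hd, h⟩ := h
  exact ⟨A, C, B, hA, hC, hB, by rwa [mul_right_comm], fun R _ D N hN h1 =>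
    h R D N hN (sg_swap23 D h1)⟩

theorem hasGood1 (q r : ℕ) (hq : 1 ≤ q) (hr : 1 ≤ r) : HasGood 1 q r := by
  refine ⟨1, 1, -1, one_ne_zero, one_ne_zero, by norm_num, by norm_num, fun R _ D N hN h => ?_⟩
  refine near D N hN (pow_map D (q * r) (Nat.mul_pos hq hr) _ _ ?_ h)
  intro a b c hs hdvd
  simp only at hdvd
  refine ⟨⟨(-c) ^ (q * r) - b ^ (q * r), b ^ r, (-c) ^ q, ?_, ?_, ?_⟩, Or.inl ?_⟩
  · simp
  · simp only; rw [← pow_mul, mul_comm r q]; push_cast; ring
  · simp only; rw [← pow_mul]; push_cast; ring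
  · simp only
    refine hdvd.trans ?_
    have h1 := sub_dvd_pow_sub_pow (-c) b (q * r)
    rwa [show -c - b = a by linear_combination -hs] at h1

theorem sorted (h2 : LeafG2) (h3 : LeafG3) (h4 : LeafG4) (h5 : LeafG5) (p q r : ℕ) (hp : 1 ≤ p)
    (hpq : p ≤ q) (hqr : q ≤ r) (h : p * q * r < q * r + p * r + p * q) : HasGood p q r := by
  rcases Nat.lt_or_ge p 2 with k1 | k1
  · have : p = 1 := by omega
    subst this
    exact hasGood1 q r hpq (by omega)
  · rcases Nat.lt_or_ge p 3 with k2 | k2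
    · have : p = 2 := by omega
      subst this
      rcases Nat.lt_or_ge q 3 with k3 | k3
      · have : q = 2 := by omega
        subst this
        exact ⟨1, -1, -1, by norm_num, by norm_num, by norm_num, by norm_num, fun R _ D N hN h =>
          h2 R D r N (by omega) hN h⟩
      · rcases Nat.lt_or_ge q 4 with k4 | k4
        · have : q = 3 := by omega
          subst this
          have k5 : r ≤ 5 := by omega
          interval_cases r
          · exact ⟨1, 1, -1, by norm_num, by norm_num, by norm_num, by norm_num, fun R _ D N hN h =>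
              h3 R D N hN h⟩
          · exact ⟨1, -1, 108, by norm_num, by norm_num, by norm_num, by norm_num,
              fun R _ D N hN h => h4 R D N hN h⟩
          · exact ⟨1, -1, -1728, by norm_num, by norm_num, by norm_num, by norm_num,
              fun R _ D N hN h => h5 R D N hN h⟩
        · exfalso
          nlinarith
    · exfalso
      have k3 : 3 * (q * r) ≤ p * q * r := by
        calc 3 * (q * r) ≤ p * (q * r) := Nat.mul_le_mul_right _ k2
          _ = _ := by ring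
      have k4 : p * r ≤ q * r := Nat.mul_le_mul_right _ hpq
      have k5 : p * q ≤ q * r := by
        calc p * q = q * p := mul_comm _ _
          _ ≤ q * r := Nat.mul_le_mul_left _ (hpq.trans hqr)
      omega

theorem hasGood (h2 : LeafG2) (h3 : LeafG3) (h4 : LeafG4) (h5 : LeafG5) (p q r : ℕ) (hp : 1 ≤ p)
    (hq : 1 ≤ q) (hr : 1 ≤ r) (h : p * q * r < q * r + p * r + p * q) : HasGood p q r := by
  rcases le_total p q with k1 | k1 <;> rcases le_total q r with k2 | k2 <;>
    rcases le_total p r with k3 | k3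
  · exact sorted h2 h3 h4 h5 p q r hp k1 k2 h
  · exact sorted h2 h3 h4 h5 p q r hp k1 k2 h
  · exact (sorted h2 h3 h4 h5 p r q hp k3 k2 (by
      calc p * r * q = p * q * r := by ring
        _ < _ := h
        _ = _ := by ring)).swap23
  · exact (sorted h2 h3 h4 h5 r p q hr k3 k1 (by
      calc r * p * q = p * q * r := by ring
        _ < _ := h
        _ = _ := by ring)).swap12.swap23
  · exact (sorted h2 h3 h4 h5 q p r hq k1 k3 (by
      calc q * p * r = p * q * r := by ring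
        _ < _ := h
        _ = _ := by ring)).swap12
  · exact (sorted h2 h3 h4 h5 q r p hq k2 k3 (by
      calc q * r * p = p * q * r := by ring
        _ < _ := h
        _ = _ := by ring)).swap23.swap12
  · exact (sorted h2 h3 h4 h5 r q p hr k2 k1 (by
      calc r * q * p = p * q * r := by ring
        _ < _ := h
        _ = _ := by ring)).swap12.swap23.swap12
  · exact (sorted h2 h3 h4 h5 r q p hr k2 k1 (by
      calc r * q * p = p * q * r := by ring
        _ < _ := h
        _ = _ := by ring)).swap12.swap23.swap12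

/-- **The spherical signatures.** -/
theorem spherical (h2 : LeafG2) (h3 : LeafG3) (h4 : LeafG4) (h5 : LeafG5) (p q r : ℕ) (hp : 1 ≤ p)
    (hq : 1 ≤ q) (hr : 1 ≤ r) (h : p * q * r < q * r + p * r + p * q) :
    ∃ A B C : ℤ, A ≠ 0 ∧ B ≠ 0 ∧ C ≠ 0 ∧ A * B * C ∣ 1728 ∧ ∀ (R : Type) [CommRing R] (D : Ar R)
      (N : ℕ), 1 ≤ N → (ABC D (Sg p q r A B C N) ↔ ABC D fun _ => True) := by
  obtain ⟨A, B, C, hA, hB, hC, hd, hh⟩ := hasGood h2 h3 h4 h5 p q r hp hq hr h
  exact ⟨A, B, C, hA, hB, hC, hd, fun R _ D N hN => ⟨hh R D N hN,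
    fun h1 => low_mono D (fun t ht => ⟨ht.1, trivial⟩) h1⟩⟩

end Pool.Agent.N251.GA
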