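import Mathlib
import Pool.Agent.N251.GA.Power

/-!
# Radical inequalities in rings of integers: radicals of `x ^ p - y ^ q`
-/

set_option autoImplicit false

namespace Pool.Agent.N251.GA

/-- the signatures: the smallest set of pairs which contains `(k, 2)` for all `k ≥ 3`, `(3, 3)` and
`(4, 4)`, is closed under exchanging the two numbers and under common multiples, and contains with
`(p, q)` the pair `(a + b, p a)` for all `a, b ≥ 1` with `p a = q b`, and the pair `(p, q (p + 1))` -/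
inductive Signature : ℕ → ℕ → Prop
  | square (k : ℕ) : 3 ≤ k → Signature k 2
  | cubes : Signature 3 3
  | fourth : Signature 4 4
  | swap {p q : ℕ} : Signature p q → Signature q p
  | multiple {p q : ℕ} (m : ℕ) : 1 ≤ m → Signature p q → Signature (p * m) (q * m)
  | mean {p q : ℕ} (a b : ℕ) : 1 ≤ a → 1 ≤ b → p * a = q * b → Signature p q →
      Signature (a + b) (p * a)
  | mean' {p q : ℕ} : Signature p q → Signature p (q * (p + 1))

theorem sig_pos {p q : ℕ} (h : Signature p q) : 2 ≤ p ∧ 2 ≤ q ∧ 5 ≤ p + q := by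
  induction h with
  | square k hk => omega
  | cubes => omega
  | fourth => omega
  | swap _ ih => omega
  | @multiple p q m hm _ ih =>
    obtain ⟨h1, h2, h3⟩ := ih
    have h4 : p * 1 ≤ p * m := Nat.mul_le_mul_left p hm
    have h5 : q * 1 ≤ q * m := Nat.mul_le_mul_left q hm
    omega
  | @mean p q a b ha hb hab _ ih =>
    obtain ⟨h1, h2, h3⟩ := ih
    have h4 : 2 * 1 ≤ p * a := Nat.mul_le_mul h1 ha
    refine ⟨by omega, by omega, ?_⟩
    rcases Nat.lt_or_ge (a + b) 3 with h5 | h5
    · have ha1 : a = 1 := by omega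
      have hb1 : b = 1 := by omega
      subst ha1 hb1
      omega
    · omega
  | @mean' p q _ ih =>
    obtain ⟨h1, h2, h3⟩ := ih
    have h4 : q * 1 ≤ q * (p + 1) := Nat.mul_le_mul_left q (by omega)
    omega

/-- the closure properties give the listed signatures -/
theorem sig_list (m : ℕ) (hm : 1 ≤ m) : (∀ k : ℕ, 3 ≤ k → Signature (k * m) (2 * m)) ∧
    Signature (3 * m) (3 * m) ∧ Signature (4 * m) (4 * m) ∧
    (∀ k : ℕ, 2 ≤ k → Signature ((k + 1) * m) (2 * k * m)) ∧
    ∀ k : ℕ, 3 ≤ k → Signature ((k + 2) * m) (2 * k * m) := by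
  refine ⟨fun k hk => (Signature.square k hk).multiple m hm, Signature.cubes.multiple m hm,
    Signature.fourth.multiple m hm, fun k hk => ?_, fun k hk => ?_⟩
  · have h1 := Signature.mean (p := 2 * k) (q := 2) 1 k le_rfl (by omega) (by ring)
      (Signature.square (2 * k) (by omega))
    rw [mul_one, add_comm] at h1
    exact h1.multiple m hm
  · have h1 := Signature.mean (p := k) (q := 2) 2 k (by omega) (by omega) (by ring)
      (Signature.square k hk)
    rw [add_comm, mul_comm k 2] at h1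
    exact h1.multiple m hm

variable {R : Type} [CommRing R]

theorem oneCusp_swap (D : Ar R) (p q N : ℕ) (h : OneCusp D p q N) : OneCusp D q p N := by
  intro ε hε
  obtain ⟨κ, hκ0, hκ⟩ := h ε hε
  refine ⟨κ, hκ0, ?_⟩
  rintro ⟨x, y⟩ ⟨hxy, hne, hN⟩
  simp only at hxy hne hN ⊢
  have h1 := hκ (y, x) ⟨hxy.symm, fun h => hne h.symm, by
    have := (dvd_neg (α := R)).2 hN
    simpa using this⟩
  simp only at h1
  have h2 : D.rad (y ^ p - x ^ q) = D.rad (x ^ q - y ^ p) := by
    have := isDomain D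
    have hF : x ^ q - y ^ p ≠ 0 := sub_ne_zero.2 hne
    have hF' : y ^ p - x ^ q ≠ 0 := sub_ne_zero.2 fun h => hne h.symm
    apply le_antisymm
    · exact D.rad_mono _ _ 1 hF ⟨-1, by ring⟩
    · exact D.rad_mono _ _ 1 hF' ⟨-1, by ring⟩
  rw [h2] at h1
  have h3 : ∀ i, max (‖D.σ i y‖ ^ p) (‖D.σ i x‖ ^ q) = max (‖D.σ i x‖ ^ q) (‖D.σ i y‖ ^ p) :=
    fun i => max_comm _ _
  simp only [h3] at h1
  rw [show 1 - 1 / (q : ℝ) - 1 / (p : ℝ) - ε = 1 - 1 / (p : ℝ) - 1 / (q : ℝ) - ε by ring]
  exact h1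

theorem square_abc (hTwo : LeafTwo) (hEven : LeafEven) (hOdd : LeafOdd) (D : Ar R) (k : ℕ)
    (hk : 3 ≤ k) (N : ℕ) (hN : 1 ≤ N) (h : OneCusp D k 2 N) : ABC D fun _ => True := by
  rcases Nat.even_or_odd' k with ⟨i, rfl | rfl⟩
  · exact hEven R D i N (by omega) hN h
  · exact hTwo R D (2 * i + 1) _ (by omega)
      (Nat.mul_pos (by omega) (Nat.mul_pos (by omega) (by omega))) (hOdd R D i N (by omega) hN h)

theorem converse (hTwo : LeafTwo) (hEven : LeafEven) (hOdd : LeafOdd) (hC : LeafCubes)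
    (hF : LeafFourth) (hM : LeafMean) (hM' : LeafMean') (hMul : LeafMul) {p q : ℕ}
    (hpq : Signature p q) (D : Ar R) : ∀ N : ℕ, 1 ≤ N → OneCusp D p q N → ABC D fun _ => True := by
  induction hpq with
  | square k hk => exact fun N hN h => square_abc hTwo hEven hOdd D k hk N hN h
  | cubes => exact fun N hN h => hC R D N hN h
  | fourth => exact fun N hN h => hF R D N hN h
  | @swap p q _ ih => exact fun N hN h => ih N hN (oneCusp_swap D q p N h)
  | @multiple p q m hm hs ih =>
    intro N hN h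
    obtain ⟨h1, h2, h3⟩ := sig_pos hs
    exact ih N hN (hMul R D m p q N hm h1 h2 h3 h)
  | @mean p q a b ha hb hab hs ih =>
    intro N hN h
    obtain ⟨h1, h2, -⟩ := sig_pos hs
    obtain ⟨h3, h4, h5⟩ := sig_pos (Signature.mean a b ha hb hab hs)
    have hL : 3 ≤ p * a := by
      by_contra hcon
      have h6 : p * a = 2 := by omega
      have h7 : a = 1 := by nlinarith
      have h8 : b = 1 := by nlinarith
      omega
    exact ih _ (Nat.mul_pos (by omega) (by positivity))
      (hM R D a b p q (p * a) N ha hb (by omega) (by omega) rfl hab.symm hL hN h)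
  | @mean' p q hs ih =>
    intro N hN h
    obtain ⟨h1, h2, -⟩ := sig_pos hs
    exact ih _ (Nat.mul_pos (by omega) (by positivity)) (hM' R D p q N h1 h2 hN h)

theorem radic (hTwo : LeafTwo) (hEven : LeafEven) (hOdd : LeafOdd) (hC : LeafCubes)
    (hF : LeafFourth) (hM : LeafMean) (hM' : LeafMean') (hMul : LeafMul) (hf1 : LeafFwdOne)
    (hf2 : LeafFwdTwo) (D : Ar R) (N : ℕ) (hN : 1 ≤ N) :
    (∀ p q : ℕ, Signature p q → ((ABC D fun _ => True) ↔ OneCusp D p q N)) ∧
      ∀ n : ℕ, 2 ≤ n → ((ABC D fun _ => True) ↔ TwoCusps D n N) := by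
  refine ⟨fun p q hpq => ⟨fun h => ?_, converse hTwo hEven hOdd hC hF hM hM' hMul hpq D N hN⟩,
    fun n hn => ⟨fun h => hf2 R D n N (by omega) h, hTwo R D n N hn hN⟩⟩
  obtain ⟨h1, h2, -⟩ := sig_pos hpq
  exact hf1 R D p q N (by omega) (by omega) h

end Pool.Agent.N251.GA
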