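import Mathlib
import Pool.Agent.N251.GA.Radic
import Pool.Agent.N251.GA.Leaves2
import Pool.Agent.N711.GA.Two
import Pool.Agent.N362.GA.Even
import Pool.Agent.N348.GA.Odd
import Pool.Agent.N559.GA.Cubes
import Pool.Agent.N482.GA.Fourth
import Pool.Agent.N163.GA.Mean
import Pool.Agent.N572.GA.Mean2
import Pool.Agent.N491.GA.Mul
import Pool.Agent.N491.GA.Fwd
import Pool.Agent.N433.GA.Gauss
import Pool.Agent.N186.GA.NF
import Pool.Agent.N946.GA.G2
import Pool.Agent.N608.GA.G3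
import Pool.Agent.N575.GA.G4
import Pool.Agent.N73.GA.G5

/-!
# Radical inequalities in rings of integers: the two instances
-/

set_option autoImplicit false

namespace Pool.Agent.N251.GA

open NumberField IsDedekindDomain

theorem spherical' (p q r : ℕ) (hp : 1 ≤ p) (hq : 1 ≤ q) (hr : 1 ≤ r)
    (h : p * q * r < q * r + p * r + p * q) :
    ∃ A B C : ℤ, A ≠ 0 ∧ B ≠ 0 ∧ C ≠ 0 ∧ A * B * C ∣ 1728 ∧ ∀ (R : Type) [CommRing R] (D : Ar R)
      (N : ℕ), 1 ≤ N → (ABC D (Sg p q r A B C N) ↔ ABC D fun _ => True) :=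
  spherical N946.GA.G2.t N608.GA.G3.t N575.GA.G4.t N73.GA.t p q r hp hq hr h

theorem radic' {R : Type} [CommRing R] (D : Ar R) (N : ℕ) (hN : 1 ≤ N) :
    (∀ p q : ℕ, Signature p q → ((ABC D fun _ => True) ↔ OneCusp D p q N)) ∧
      ∀ n : ℕ, 2 ≤ n → ((ABC D fun _ => True) ↔ TwoCusps D n N) :=
  radic N711.GA.t (N362.GA.t N711.GA.t) N348.GA.t N559.GA.Cubes.t N482.GA.Fourth.t N163.GA.t
    N572.GAMean2.t N491.GA.t N491.GA.t1 N491.GA.t2 D N hN

/-- the Gaussian integers -/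
noncomputable def arG : Ar GaussianInt where
  ι := Unit
  fin := inferInstance
  ne := inferInstance
  σ := fun _ => GaussianInt.toComplex
  rad := radG
  one_le_norm := fun x hx => by simpa using N433.GA.Gauss.t.1 x hx
  one_le_rad := N433.GA.Gauss.t.2.1
  rad_le_norm := fun x hx => by simpa using N433.GA.Gauss.t.2.2.1 x hx
  rad_mul_le := N433.GA.Gauss.t.2.2.2.1
  rad_mono := N433.GA.Gauss.t.2.2.2.2.1
  idem := N433.GA.Gauss.t.2.2.2.2.2

theorem arG_prod (f : arG.ι → ℝ) : ∏ i, f i = f () := by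
  have h := Finset.prod_singleton (f : Unit → ℝ) ()
  exact h

/-- the ring of integers of a number field -/
noncomputable def arK (K : Type) [Field K] [NumberField K] : Ar (𝓞 K) where
  ι := K →+* ℂ
  fin := inferInstance
  ne := inferInstance
  σ := fun φ => φ.comp (algebraMap (𝓞 K) K)
  rad := radK
  one_le_norm := fun x hx => (N186.GANF.t K).1 x hx
  one_le_rad := (N186.GANF.t K).2.1
  rad_le_norm := fun x hx => (N186.GANF.t K).2.2.1 x hx
  rad_mul_le := (N186.GANF.t K).2.2.2.1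
  rad_mono := (N186.GANF.t K).2.2.2.2.1
  idem := (N186.GANF.t K).2.2.2.2.2

/-- the two forms of a radical inequality -/
theorem low_iff {R : Type} [CommRing R] (D : Ar R) {S : Type} {P : S → Prop} {M : S → D.ι → ℝ}
    {F : S → R} (hM : ∀ s, P s → 1 ≤ ∏ i, M s i) :
    Low D P M F 1 ↔ ∀ ε : ℝ, 0 < ε → ∃ C : ℝ, ∀ s, P s → ∏ i, M s i ≤ C * D.rad (F s) ^ (1 + ε) := by
  constructor
  · intro h ε hε
    have hε1 : 0 < 1 + ε := by linarith
    obtain ⟨κ, hκ0, hκ⟩ := h (ε / (1 + ε)) (by positivity)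
    refine ⟨(κ⁻¹) ^ (1 + ε), fun s hs => ?_⟩
    have h1 := hκ s hs
    have hm := hM s hs
    set m : ℝ := ∏ i, M s i with hmdef
    have hm0 : 0 < m := by linarith
    have hr := D.one_le_rad (F s)
    have e1 : 1 - ε / (1 + ε) = 1 / (1 + ε) := by field_simp; ring
    rw [e1] at h1
    have h2 : m ^ (1 / (1 + ε)) ≤ κ⁻¹ * D.rad (F s) := by
      rw [inv_mul_eq_div, le_div_iff₀ hκ0]; linarith
    calc m = (m ^ (1 / (1 + ε))) ^ (1 + ε) := by
          rw [← Real.rpow_mul hm0.le, one_div_mul_cancel hε1.ne', Real.rpow_one]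
      _ ≤ (κ⁻¹ * D.rad (F s)) ^ (1 + ε) :=
          Real.rpow_le_rpow (Real.rpow_nonneg hm0.le _) h2 hε1.le
      _ = _ := Real.mul_rpow (by positivity) (by linarith)
  · intro h ε hε
    by_cases hε1 : 1 ≤ ε
    · refine ⟨1, one_pos, fun s hs => ?_⟩
      have hm := hM s hs
      have h1 : (∏ i, M s i) ^ (1 - ε) ≤ 1 := Real.rpow_le_one_of_one_le_of_nonpos hm (by linarith)
      have := D.one_le_rad (F s)
      linarith
    · push Not at hε1
      obtain ⟨C, hC⟩ := h (ε / (1 - ε)) (div_pos hε (by linarith))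
      have hC1 : 0 < max C 1 := lt_max_of_lt_right one_pos
      refine ⟨((max C 1) ^ (1 - ε))⁻¹, by positivity, fun s hs => ?_⟩
      have h1 := hC s hs
      have hm := hM s hs
      set m : ℝ := ∏ i, M s i with hmdef
      have hm0 : 0 < m := by linarith
      have hr := D.one_le_rad (F s)
      have hε2 : 0 < 1 - ε := by linarith
      have hrp : 0 < D.rad (F s) ^ (1 + ε / (1 - ε)) := Real.rpow_pos_of_pos (by linarith) _
      have h2 : m ≤ max C 1 * D.rad (F s) ^ (1 + ε / (1 - ε)) :=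
        h1.trans (mul_le_mul_of_nonneg_right (le_max_left _ _) hrp.le)
      have h3 : m ^ (1 - ε) ≤ (max C 1) ^ (1 - ε) * D.rad (F s) := by
        calc m ^ (1 - ε) ≤ (max C 1 * D.rad (F s) ^ (1 + ε / (1 - ε))) ^ (1 - ε) :=
              Real.rpow_le_rpow hm0.le h2 hε2.le
          _ = (max C 1) ^ (1 - ε) * D.rad (F s) := by
              rw [Real.mul_rpow hC1.le hrp.le, ← Real.rpow_mul (by linarith)]
              congr 1
              rw [show (1 + ε / (1 - ε)) * (1 - ε) = 1 by field_simp; ring, Real.rpow_one]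
      rw [inv_mul_le_iff₀ (Real.rpow_pos_of_pos hC1 _)]
      exact h3

/-- the inequality of Q1 over the Gaussian integers for the triples with the property `T` -/
def AbcG (T : GaussianInt → GaussianInt → GaussianInt → Prop) : Prop :=
  ∀ ε : ℝ, 0 < ε → ∃ κ : ℝ, 0 < κ ∧ ∀ a b c : GaussianInt, IsCoprime a b → a + b = c →
    a * b * c ≠ 0 → T a b c →
      κ * (max ‖GaussianInt.toComplex a‖ (max ‖GaussianInt.toComplex b‖
        ‖GaussianInt.toComplex c‖)) ^ (1 - ε) ≤ radG (a * b * c)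

theorem radG_neg (n : GaussianInt) : radG (-n) = radG n := by
  unfold radG
  simp only [dvd_neg]

theorem abcG_iff (T : GaussianInt → GaussianInt → GaussianInt → Prop) :
    AbcG T ↔ ABC arG fun t => T t.1 t.2.1 (-t.2.2) := by
  constructor
  · intro h ε hε
    obtain ⟨κ, hκ0, hκ⟩ := h ε hε
    refine ⟨κ, hκ0, ?_⟩
    rintro ⟨a, b, c⟩ ⟨⟨h1, h2, h3, h4, h5⟩, hT⟩
    simp only at h1 h2 h3 h4 h5 hT ⊢
    have h6 := hκ a b (-c) h1 (by linear_combination h2)
      (mul_ne_zero (mul_ne_zero h3 h4) (neg_ne_zero.2 h5)) hT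
    rw [arG_prod]
    have e1 : radG (a * b * -c) = radG (a * b * c) := by rw [mul_neg, radG_neg]
    rw [e1, map_neg, norm_neg, ← max_assoc] at h6
    exact h6
  · intro h ε hε
    obtain ⟨κ, hκ0, hκ⟩ := h ε hε
    refine ⟨κ, hκ0, ?_⟩
    intro a b c h1 h2 h3 hT
    have ha : a ≠ 0 := by rintro rfl; simp at h3
    have hb : b ≠ 0 := by rintro rfl; simp at h3
    have hc : c ≠ 0 := by rintro rfl; simp at h3
    have h6 := hκ (a, b, -c) ⟨⟨h1, by simp only; linear_combination h2, ha, hb,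
      neg_ne_zero.2 hc⟩, by simpa using hT⟩
    rw [arG_prod] at h6
    simp only [ht, arG] at h6
    have e1 : radG (a * b * -c) = radG (a * b * c) := by rw [mul_neg, radG_neg]
    rw [e1, map_neg, norm_neg, max_assoc] at h6
    exact h6

variable {K : Type} [Field K] [NumberField K]

omit [NumberField K] in
theorem cop_iff {a b c : 𝓞 K} (h : a + b + c = 0) :
    Ideal.span {a, b, c} = (⊤ : Ideal (𝓞 K)) ↔ IsCoprime a b := by
  have hc : c ∈ Ideal.span {a, b} := by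
    have e : c = -1 * a + -1 * b := by linear_combination h
    rw [e]
    exact Ideal.mem_span_pair.2 ⟨-1, -1, rfl⟩
  have h1 : Ideal.span {a, b, c} = Ideal.span ({a, b} : Set (𝓞 K)) := by
    apply le_antisymm
    · rw [Ideal.span_le]
      intro x hx
      rcases hx with rfl | rfl | rfl
      · exact Ideal.subset_span (by simp)
      · exact Ideal.subset_span (by simp)
      · exact hc
    · apply Ideal.span_mono
      intro x hx
      rcases hx with rfl | rfl <;> simp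
  rw [h1, Ideal.eq_top_iff_one, Ideal.mem_span_pair]
  exact Iff.rfl

/-- the inequality of Q1 over `𝓞 K` for the triples with the property `T` -/
def AbcK (T : 𝓞 K × 𝓞 K × 𝓞 K → Prop) : Prop :=
  ∀ ε : ℝ, 0 < ε → ∃ C : ℝ, ∀ t : 𝓞 K × 𝓞 K × 𝓞 K, t.1 + t.2.1 + t.2.2 = 0 →
    t.1 * t.2.1 * t.2.2 ≠ 0 → Ideal.span {t.1, t.2.1, t.2.2} = (⊤ : Ideal (𝓞 K)) → T t →
      ∏ φ : K →+* ℂ, max ‖φ t.1‖ (max ‖φ t.2.1‖ ‖φ t.2.2‖) ≤
        C * radK (t.1 * t.2.1 * t.2.2) ^ (1 + ε)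

theorem abcK_iff (T : 𝓞 K × 𝓞 K × 𝓞 K → Prop) : AbcK T ↔ ABC (arK K) T := by
  unfold ABC
  rw [low_iff (arK K) (fun t ht => ht_one (arK K) ht.1)]
  have hh : ∀ t : 𝓞 K × 𝓞 K × 𝓞 K, ∏ φ : K →+* ℂ, max ‖φ t.1‖ (max ‖φ t.2.1‖ ‖φ t.2.2‖) =
      ∏ i, ht (arK K) t i := by
    intro t
    apply Finset.prod_congr rfl
    intro φ _
    rw [← max_assoc]
    rfl
  constructor
  · intro h ε hε
    obtain ⟨C, hC⟩ := h ε hε
    refine ⟨C, fun t ht => ?_⟩
    obtain ⟨⟨h1, h2, h3, h4, h5⟩, hT⟩ := ht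
    rw [← hh]
    exact hC t h2 (mul_ne_zero (mul_ne_zero h3 h4) h5) ((cop_iff h2).2 h1) hT
  · intro h ε hε
    obtain ⟨C, hC⟩ := h ε hε
    refine ⟨C, fun t h2 h3 h1 hT => ?_⟩
    rw [hh]
    have h4 : t.1 ≠ 0 := fun h => h3 (by rw [h]; ring)
    have h5 : t.2.1 ≠ 0 := fun h => h3 (by rw [h]; ring)
    have h6 : t.2.2 ≠ 0 := fun h => h3 (by rw [h]; ring)
    exact hC t ⟨⟨(cop_iff h2).1 h1, h2, h4, h5, h6⟩, hT⟩

end Pool.Agent.N251.GA
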