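import Mathlib
import Pool.Agent.N251.GA.Leaves2

/-!
# GA2/SYM4: the inequality for `t (s² + t²)` gives abc
-/

set_option autoImplicit false

namespace Pool.Agent.N251.GA.Sym4

open Pool.Agent.N251.GA

theorem unit_of_dvd_pow {R : Type} [CommRing R] {a b : R} (h : IsCoprime a b) (k : ℕ)
    (hd : a ∣ b ^ k) : IsUnit a :=
  (h.pow_right (n := k)).isUnit_of_dvd' dvd_rfl hd

theorem t : LeafSym4 := by
  intro R _ D N hN h
  have := isDomain D
  have := charZero D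
  refine near D (2 * N) (by omega) ?_
  obtain ⟨C₁, hC₁, hlow⟩ := hom_lower
    (fun p => p.2 ^ 4 - 6 * p.1 ^ 2 * p.2 ^ 2 + p.1 ^ 4)
    (fun p => 4 * p.1 * p.2 * ((p.2 - p.1) * (p.1 + p.2)))
    (by fun_prop) (by fun_prop) 4 (by norm_num)
    (fun t p => by simp only [Prod.smul_fst, Prod.smul_snd, smul_eq_mul]; ring)
    (fun t p => by simp only [Prod.smul_fst, Prod.smul_snd, smul_eq_mul]; ring)
    (by
      rintro ⟨x, y⟩ h5 h6
      simp only at h5 h6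
      have h7 : (x ^ 2 + y ^ 2) ^ 4 = 0 := by
        linear_combination (y ^ 4 - 6 * x ^ 2 * y ^ 2 + x ^ 4) * h5 + (4 * x * y * ((y - x) * (x + y))) * h6
      have h8 : x ^ 2 + y ^ 2 = 0 := (pow_eq_zero_iff (by norm_num)).1 h7
      have h9 : y ^ 4 = 0 := by linear_combination (1 / 8) * h5 - (1 / 8) * (x ^ 2 - 7 * y ^ 2) * h8
      have h10 : y = 0 := (pow_eq_zero_iff (by norm_num)).1 h9
      have h11 : x ^ 2 = 0 := by linear_combination h8 - y * h10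
      have h12 : x = 0 := (pow_eq_zero_iff (by norm_num)).1 h11
      rw [h10, h12]; rfl)
  obtain ⟨C₂, hC₂, hup⟩ := hom_upper (fun p => (p.2 - p.1) * (p.1 ^ 2 + p.2 ^ 2)) (by fun_prop) 3
    (fun t p => by simp only [Prod.smul_fst, Prod.smul_snd, smul_eq_mul]; ring)
  set K : ℝ := 1 + 2 ^ 4 * C₁ + C₂ with hK
  refine transferTri D 4 3 K (by rw [hK]; nlinarith) (by norm_num) (by norm_num) ?_ h
  rintro ⟨a, b, c⟩ ht hdvd
  obtain ⟨hab, hsum, ha, hb, hc⟩ := ht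
  simp only at hab hsum ha hb hc hdvd
  right
  have hc' : c = -(a + b) := by linear_combination hsum
  have hab0 : a + b ≠ 0 := by
    intro h0; rw [hc', h0, neg_zero] at hc; exact hc rfl
  obtain ⟨r, hr⟩ := hdvd
  have h2a : ((2 : ℕ) : R) ∣ a := ⟨N * r, by rw [hr]; push_cast; ring⟩
  have hnu : ¬ IsUnit a := not_unit_of_dvd D le_rfl h2a
  obtain ⟨a₂, ha₂⟩ := h2a
  push_cast at ha₂
  set s : R := b ^ 4 - 6 * a ^ 2 * b ^ 2 + a ^ 4 with hs
  set T : R := 4 * a * b * ((b - a) * (a + b)) with hT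
  set q : R := a ^ 2 + b ^ 2 with hq
  have hst : s ^ 2 + T ^ 2 = q ^ 4 := by rw [hs, hT, hq]; ring
  have he0 : b - a ≠ 0 := by
    intro h0
    have h1 : b = a := sub_eq_zero.1 h0
    rw [h1] at hab
    exact hnu (isCoprime_self.1 hab)
  have hq0 : q ≠ 0 := by
    intro h0
    exact hnu (unit_of_dvd_pow hab 2 ⟨-a, by rw [hq] at h0; linear_combination h0⟩)
  have h4 : (4 : R) ≠ 0 := by exact_mod_cast (show (4 : ℕ) ≠ 0 by norm_num)
  have hT0 : T ≠ 0 := mul_ne_zero (mul_ne_zero (mul_ne_zero h4 ha) hb) (mul_ne_zero he0 hab0)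
  -- coprimality
  have hcop : IsCoprime s T := by
    apply isCoprime_of_max
    intro P hPm hsP hTP
    have haP : a ∈ P → False := by
      intro h5
      have h9 : b ^ 4 ∈ P := by
        have e : b ^ 4 = s + a * (6 * a * b ^ 2 - a ^ 3) := by rw [hs]; ring
        rw [e]; exact P.add_mem hsP (P.mul_mem_right _ h5)
      exact not_both hab hPm h5 (hPm.isPrime.mem_of_pow_mem _ h9)
    have h2P : (2 : R) ∈ P → False := fun h5 => haP (by rw [ha₂]; exact P.mul_mem_right _ h5)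
    have hqP : q ∈ P := by
      have h6 : q ^ 4 ∈ P := by
        rw [← hst, sq, sq]; exact P.add_mem (P.mul_mem_right _ hsP) (P.mul_mem_right _ hTP)
      exact hPm.isPrime.mem_of_pow_mem _ h6
    have h6 : 2 ^ 3 * (a ^ 2 * b ^ 2) ∈ P := by
      have e : 2 ^ 3 * (a ^ 2 * b ^ 2) = q * q - s := by rw [hq, hs]; ring
      rw [e]; exact P.sub_mem (P.mul_mem_right _ hqP) hsP
    rcases hPm.isPrime.mem_or_mem h6 with h7 | h7
    · exact h2P (hPm.isPrime.mem_of_pow_mem _ h7)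
    rcases hPm.isPrime.mem_or_mem h7 with h9 | h9
    · exact haP (hPm.isPrime.mem_of_pow_mem _ h9)
    · have hbP : b ∈ P := hPm.isPrime.mem_of_pow_mem _ h9
      have h10 : a ^ 2 ∈ P := by
        have e : a ^ 2 = q - b * b := by rw [hq]; ring
        rw [e]; exact P.sub_mem hqP (P.mul_mem_right _ hbP)
      exact haP (hPm.isPrime.mem_of_pow_mem _ h10)
  -- local sizes
  have hloc : ∀ i, ht D (a, b, c) i ≤ 2 * ‖(D.σ i a, D.σ i b)‖ := by
    intro i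
    rw [Prod.norm_def]
    simp only [ht]
    have h1 := le_max_left ‖D.σ i a‖ ‖D.σ i b‖
    have h3 := le_max_right ‖D.σ i a‖ ‖D.σ i b‖
    have h4 : ‖D.σ i c‖ ≤ ‖D.σ i a‖ + ‖D.σ i b‖ := by
      rw [hc', map_neg, norm_neg, map_add]; exact norm_add_le _ _
    have h5 : 0 ≤ ‖D.σ i a‖ := norm_nonneg _
    refine max_le (max_le ?_ ?_) ?_ <;> linarith
  have hnp : ∀ i, ‖(D.σ i a, D.σ i b)‖ ≤ ht D (a, b, c) i := by
    intro i
    rw [Prod.norm_def]
    exact max_le (ht_ge1 D (a, b, c) i) (ht_ge2 D (a, b, c) i)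
  refine ⟨(s, T), ⟨hcop, ⟨0, -1, by push_cast; ring⟩, hT0, ?_, ?_⟩, ?_, (b - a) * q, ?_, ?_, 4, ?_⟩
  · show s ^ 2 ≠ ((-1 : ℤ) : R) * T ^ 2
    intro h0
    push_cast at h0
    have h1 : q ^ 4 = 0 := by rw [← hst, h0]; ring
    exact pow_ne_zero 4 hq0 h1
  · show ((N : ℕ) : R) ∣ T
    refine ⟨8 * r * b * ((b - a) * (a + b)), ?_⟩
    rw [hT, hr]; push_cast; ring
  · intro i
    have h1 := hlow (D.σ i a, D.σ i b)
    simp only at h1
    have h3 : max ‖D.σ i b ^ 4 - 6 * D.σ i a ^ 2 * D.σ i b ^ 2 + D.σ i a ^ 4‖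
        ‖4 * D.σ i a * D.σ i b * ((D.σ i b - D.σ i a) * (D.σ i a + D.σ i b))‖ =
        max ‖D.σ i s‖ ‖D.σ i T‖ := by
      simp only [hs, hT, map_mul, map_pow, map_add, map_sub, map_ofNat]
    rw [h3] at h1
    calc ht D (a, b, c) i ^ 4 ≤ (2 * ‖(D.σ i a, D.σ i b)‖) ^ 4 :=
          pow_le_pow_left₀ (ht_nonneg D _ i) (hloc i) 4
      _ = 2 ^ 4 * ‖(D.σ i a, D.σ i b)‖ ^ 4 := mul_pow _ _ _
      _ ≤ 2 ^ 4 * (C₁ * max ‖D.σ i s‖ ‖D.σ i T‖) :=
          mul_le_mul_of_nonneg_left h1 (by norm_num)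
      _ = 2 ^ 4 * C₁ * max ‖D.σ i s‖ ‖D.σ i T‖ := by ring
      _ ≤ _ := mul_le_mul_of_nonneg_right (by rw [hK]; linarith)
          (le_max_of_le_left (norm_nonneg _))
  · exact mul_ne_zero he0 hq0
  · intro i
    have h1 := hup (D.σ i a, D.σ i b)
    have e1 : D.σ i ((b - a) * q) =
        (D.σ i b - D.σ i a) * (D.σ i a ^ 2 + D.σ i b ^ 2) := by
      simp only [hq, map_mul, map_sub, map_add, map_pow]
    rw [e1]
    calc _ ≤ C₂ * ‖(D.σ i a, D.σ i b)‖ ^ 3 := h1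
      _ ≤ C₂ * ht D (a, b, c) i ^ 3 := by
          apply mul_le_mul_of_nonneg_left _ hC₂.le
          exact pow_le_pow_left₀ (norm_nonneg _) (hnp i) 3
      _ ≤ _ := mul_le_mul_of_nonneg_right (by rw [hK]; nlinarith) (pow_nonneg (ht_nonneg D _ i) _)
  · show T * (s ^ 2 - ((-1 : ℤ) : R) * T ^ 2) ∣ (a * b * c * ((b - a) * q)) ^ 4
    have e0 : s ^ 2 - ((-1 : ℤ) : R) * T ^ 2 = q ^ 4 := by
      push_cast
      rw [← hst]
      ring
    rw [e0]
    refine ⟨a₂ ^ 2 * a * b ^ 3 * (a + b) ^ 3 * (b - a) ^ 3, ?_⟩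
    have e1 : (a * b * c * ((b - a) * q)) ^ 4 = a ^ 2 * a * a * b ^ 4 * (a + b) ^ 4 *
        (b - a) ^ 4 * q ^ 4 := by rw [hc']; ring
    have e2 : a ^ 2 = 4 * a₂ ^ 2 := by rw [ha₂]; ring
    rw [e1, e2, hT]
    ring

end Pool.Agent.N251.GA.Sym4
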